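import Pool.Agent.Helper67.CYC.Fans
import Pool.Agent.Helper67.TBM.Geo

/-! # Cyclic words: the hyperbolic structure from the shape parameters -/

namespace Pool.Agent.Helper67.CYC
open Finset Pool.Agent.Helper5.TV Pool.Agent.Helper5.Cov Pool.Agent.Helper52.OC
open Pool.Agent.Helper67.TBM (zf phf phm sf thf XA WA YA volA sm sgA sg sg_le scl ptolemy)
open Pool.Agent.Helper67.SW (scale_eq sine_rule)
open Pool.Agent.Helper5.TB (Vx)

/-- `φ_f^+` -/
noncomputable def phq (p : ℕ → Bool) (x y : ℕ → ℂ) (f : ℕ) : ℂ := phf p f (Vx (x f) (y f))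

/-- what the triangulation needs; fans `f ≥ 1` -/
structure TBShape (p : ℕ → Bool) (a : ℕ → ℕ) (x y : ℕ → ℂ) : Prop where
  pos : ∀ f, 1 ≤ f → ∀ j ∈ Icc 1 (a f - sg (sm p) f),
    0 < XA p x y f j ∧ 0 < WA p x y f j ∧ 0 < YA p x y f j
  ne : ∀ f, 1 ≤ f → ∀ j : ℕ, j ≤ a f + 1 → sf p x y f j ≠ 0
  pne : ∀ f, 1 ≤ f → Complex.sin (zf p x f) ≠ 0
  cne : ∀ f, 1 ≤ f → Complex.cos (zf p x f) ≠ 0
  m0 : ∀ f, 1 ≤ f → ‖sf p x y (f+1) 0‖ * ‖Complex.tan (zf p x f)‖
    = ‖Complex.sin (zf p x f)‖ * ‖Complex.tan (zf p x (f+1))‖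
  mp : ∀ f, 1 ≤ f → ‖Complex.sin (zf p x (f+1))‖ * ‖Complex.tan (zf p x f)‖
    = ‖sf p x y f (a f)‖ * ‖Complex.tan (zf p x (f+1))‖
  m1 : ∀ f, 1 ≤ f → sm p f = false → ‖sf p x y (f+1) 1‖ * ‖Complex.tan (zf p x f)‖
    = ‖sf p x y f (a f + 1)‖ * ‖Complex.tan (zf p x (f+1))‖
  h0 : ∀ f, 1 ≤ f → sm p f = false → XA p x y (f+1) 0 = XA p x y f (a f)
  h1 : ∀ f, 1 ≤ f → sm p f = false → thf p x y (f+1) 1 - (Complex.sin (zf p x (f+1))).arg
    = thf p x y f (a f) - thf p x y f (a f + 1) - Real.pi/2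
  m1s : ∀ f, 1 ≤ f → sm p f = true → ‖sf p x y (f+1) 1‖ * ‖Complex.tan (zf p x f)‖
    = ‖sf p x y f (a f - 1)‖ * ‖Complex.tan (zf p x (f+1))‖
  hA : ∀ f, 1 ≤ f → sm p f = true → thf p x y (f+1) 1 - (Complex.sin (zf p x (f+1))).arg
    = thf p x y f (a f - 1) - thf p x y f (a f) - Real.pi/2
  hB : ∀ f, 1 ≤ f → sm p f = true → thf p x y f (a f - 1) - (Complex.sin (zf p x f)).arg
    = thf p x y (f+1) 1 - thf p x y (f+1) 0 - Real.pi/2

/-- periodicity of all data -/
structure Per (r : ℕ) (p : ℕ → Bool) (a : ℕ → ℕ) (x y : ℕ → ℂ) : Prop where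
  p : ∀ f, p (f + r) = p f
  a : ∀ f, a (f + r) = a f
  x : ∀ f, x (f + r) = x f
  y : ∀ f, y (f + r) = y f

namespace Per
variable {r : ℕ} {p : ℕ → Bool} {a : ℕ → ℕ} {x y : ℕ → ℂ} (P : Per r p a x y)
include P

theorem sm (f : ℕ) : sm p (f + r) = sm p f := by
  unfold TBM.sm
  rw [show f + r + 1 = f + 1 + r by ring, P.p, P.p]

theorem zf (f : ℕ) : zf p x (f + r) = zf p x f := by
  unfold TBM.zf
  rw [P.p, P.x]

theorem phm {f : ℕ} (hf : 1 ≤ f) : phm p x y (f + r) = phm p x y f := by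
  unfold TBM.phm TBM.phf
  rw [if_pos (show 0 < f + r by omega), if_pos (show 0 < f by omega), P.p, P.x,
    show f + r - 1 = (f - 1) + r by omega, P.y]

theorem sf {f : ℕ} (hf : 1 ≤ f) (j : ℤ) : sf p x y (f + r) j = sf p x y f j := by
  unfold TBM.sf
  rw [P.zf, P.phm hf]

theorem thf {f : ℕ} (hf : 1 ≤ f) (j : ℤ) : thf p x y (f + r) j = thf p x y f j := by
  unfold TBM.thf
  rw [P.sf hf]

theorem XA {f : ℕ} (hf : 1 ≤ f) (j : ℤ) : XA p x y (f + r) j = XA p x y f j := by
  unfold TBM.XA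
  rw [P.zf, P.thf hf]

theorem WA {f : ℕ} (hf : 1 ≤ f) (j : ℤ) : WA p x y (f + r) j = WA p x y f j := by
  unfold TBM.WA
  rw [P.thf hf, P.thf hf, P.thf hf]

theorem YA {f : ℕ} (hf : 1 ≤ f) (j : ℤ) : YA p x y (f + r) j = YA p x y f j := by
  unfold TBM.YA
  rw [P.XA hf, P.WA hf]

theorem scl (f : ℕ) : scl p x (f + r) = scl p x f := by
  unfold TBM.scl
  rw [P.zf]

end Per

variable {p : ℕ → Bool} {a : ℕ → ℕ} {r : ℕ} {x y : ℕ → ℂ}

theorem TBShape.tne (H : TBShape p a x y) {f : ℕ} (hf : 1 ≤ f) :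
    0 < ‖Complex.tan (zf p x f)‖ := by
  rw [norm_pos_iff, Complex.tan_eq_sin_div_cos]
  exact div_ne_zero (H.pne f hf) (H.cne f hf)

/-! ## The moduli -/

/-- new edge -/
noncomputable def qn (p : ℕ → Bool) (x y : ℕ → ℂ) (q : ℕ × ℕ) : ℝ :=
  scl p x q.1 * ‖sf p x y q.1 (q.2 + 1)‖
/-- edge of the preceding layer -/
noncomputable def qy (p : ℕ → Bool) (x y : ℕ → ℂ) (q : ℕ × ℕ) : ℝ :=
  if isS (sm p) q then scl p x q.1 * ‖Complex.sin (zf p x q.1)‖ else scl p x q.1 * ‖sf p x y q.1 q.2‖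
/-- pivot -/
noncomputable def qp (p : ℕ → Bool) (x y : ℕ → ℂ) (q : ℕ × ℕ) : ℝ :=
  if isS (sm p) q then scl p x q.1 * ‖sf p x y q.1 1‖ else scl p x q.1 * ‖Complex.sin (zf p x q.1)‖
/-- flipped edge -/
noncomputable def qo (p : ℕ → Bool) (x y : ℕ → ℂ) (q : ℕ × ℕ) : ℝ :=
  scl p x q.1 * ‖sf p x y q.1 (q.2 - 1)‖

/-- arguments relative to the pivot: old edge -/
noncomputable def dO (p : ℕ → Bool) (x y : ℕ → ℂ) (q : ℕ × ℕ) : ℝ :=
  if isS (sm p) q then thf p x y q.1 1 - thf p x y q.1 0 - Real.pi / 2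
  else thf p x y q.1 ((q.2 : ℤ) - 1) - (Complex.sin (zf p x q.1)).arg

/-- arguments relative to the pivot: edge in the middle -/
noncomputable def dY (p : ℕ → Bool) (x y : ℕ → ℂ) (q : ℕ × ℕ) : ℝ :=
  thf p x y q.1 (q.2 : ℤ) - (Complex.sin (zf p x q.1)).arg

/-- arguments relative to the pivot: new edge -/
noncomputable def dN (p : ℕ → Bool) (x y : ℕ → ℂ) (q : ℕ × ℕ) : ℝ :=
  if isS (sm p) q then WA p x y q.1 1 - Real.pi - dO p x y q
  else thf p x y q.1 ((q.2 : ℤ) + 1) - (Complex.sin (zf p x q.1)).arg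

theorem lst_idx {s : ℕ → Bool} {q : ℕ × ℕ} (h : isL s a q) :
    (s q.1 = false → q.2 = a q.1) ∧ (s q.1 = true → q.2 + 1 = a q.1) := by
  unfold isL sg at h
  constructor
  · intro g; rw [g] at h; simpa using h
  · intro g; rw [g] at h; simpa using h

theorem spec_succ {s : ℕ → Bool} {l : ℕ} (h : isL s a (fj s a l)) :
    isS s (fj s a (l+1)) ↔ s (fj s a l).1 = true := by
  rw [fj_isL h]
  unfold isS
  simp

theorem not_spec_succ {s : ℕ → Bool} (ha : ∀ f, 3 ≤ a f) {l : ℕ}
    (h : ¬ isL s a (fj s a l)) : ¬ isS s (fj s a (l+1)) := by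
  obtain ⟨i1, i2, i3, i4⟩ := fj_inv (s := s) ha l
  rw [fj_notL h]
  rintro ⟨h1, -⟩
  simp only at h1
  omega

theorem tt_true {s : ℕ → Bool} {l : ℕ} (h : tt s a l = true) :
    isL s a (fj s a l) ∨ isS s (fj s a l) := by
  unfold tt at h
  simpa using h

theorem tt_false {s : ℕ → Bool} {l : ℕ} (h : tt s a l = false) :
    ¬ isL s a (fj s a l) ∧ ¬ isS s (fj s a l) := by
  unfold tt at h
  simpa using h

section moduli
variable (H : TBShape p a x y) (ha : ∀ f, 3 ≤ a f)
include H ha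

/-- transition of the moduli -/
theorem y_succ (l : ℕ) : qy p x y (fj (sm p) a (l+1)) = qn p x y (fj (sm p) a l) := by
  obtain ⟨i1, i2, i3, i4⟩ := fj_inv (s := sm p) ha l
  unfold qy qn
  by_cases g : isL (sm p) a (fj (sm p) a l)
  · have hx := lst_idx g
    rcases Bool.eq_false_or_eq_true (sm p (fj (sm p) a l).1) with c | c
    · rw [if_pos ((spec_succ g).mpr c), fj_isL g]
      simp only
      have e : (((fj (sm p) a l).2 : ℤ) + 1) = ((a (fj (sm p) a l).1 : ℕ) : ℤ) := by
        have := hx.2 c; omega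
      rw [e]
      exact scale_eq (H.tne i1) (H.tne (by omega)) (H.mp _ i1)
    · rw [if_neg (fun h => by rw [(spec_succ g).mp h] at c; exact absurd c (by decide)), fj_isL g]
      simp only
      have e : ((fj (sm p) a l).2 : ℤ) = ((a (fj (sm p) a l).1 : ℕ) : ℤ) := by
        have := hx.1 c; omega
      rw [e]
      have := H.m1 _ i1 c
      exact scale_eq (H.tne i1) (H.tne (by omega)) (by push_cast; exact this)
  · rw [if_neg (not_spec_succ ha g), fj_notL g]
    push_cast
    rfl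

theorem po_true {l : ℕ} (h : tt (sm p) a l = true) :
    qp p x y (fj (sm p) a (l+1)) = qy p x y (fj (sm p) a l) ∧
    qo p x y (fj (sm p) a (l+1)) = qp p x y (fj (sm p) a l) := by
  obtain ⟨i1, i2, i3, i4⟩ := fj_inv (s := sm p) ha l
  unfold qp qy qo
  by_cases g : isL (sm p) a (fj (sm p) a l)
  · have hx := lst_idx g
    have hns : ¬ isS (sm p) (fj (sm p) a l) := fun h => not_both ha g h
    rw [if_neg hns, if_neg hns, fj_isL g]
    simp only
    rw [show ((1:ℕ):ℤ) - 1 = 0 by norm_num]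
    refine ⟨?_, ?_⟩
    · rcases Bool.eq_false_or_eq_true (sm p (fj (sm p) a l).1) with c | c
      · rw [if_pos (by have := (spec_succ g).mpr c; rwa [fj_isL g] at this)]
        have e : ((fj (sm p) a l).2 : ℤ) = ((a (fj (sm p) a l).1 : ℕ) : ℤ) - 1 := by
          have := hx.2 c; omega
        rw [e]
        exact scale_eq (H.tne i1) (H.tne (by omega)) (H.m1s _ i1 c)
      · rw [if_neg (fun h => by
          have h' := (spec_succ g).mp (by rwa [fj_isL g])
          rw [h'] at c; exact absurd c (by decide))]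
        have e : ((fj (sm p) a l).2 : ℤ) = ((a (fj (sm p) a l).1 : ℕ) : ℤ) := by
          have := hx.1 c; omega
        rw [e]
        exact scale_eq (H.tne i1) (H.tne (by omega)) (H.mp _ i1)
    · exact scale_eq (H.tne i1) (H.tne (by omega)) (H.m0 _ i1)
  · have c : isS (sm p) (fj (sm p) a l) := (tt_true h).resolve_left g
    have hns' := not_spec_succ ha g
    rw [if_pos c, if_pos c, if_neg hns', fj_notL g]
    simp only
    refine ⟨trivial, ?_⟩
    have e : (((fj (sm p) a l).2 + 1 : ℕ) : ℤ) - 1 = 1 := by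
      have := c.1; omega
    rw [e]

theorem po_false {l : ℕ} (h : tt (sm p) a l = false) :
    qp p x y (fj (sm p) a (l+1)) = qp p x y (fj (sm p) a l) ∧
    qo p x y (fj (sm p) a (l+1)) = qy p x y (fj (sm p) a l) := by
  obtain ⟨g, c⟩ := tt_false h
  have hns' := not_spec_succ ha g
  unfold qp qy qo
  rw [if_neg hns', if_neg c, if_neg c, fj_notL g]
  simp only
  refine ⟨trivial, ?_⟩
  push_cast
  rw [add_sub_cancel_right]

/-! ## The arguments -/

theorem d_false {l : ℕ} (h : tt (sm p) a l = false) :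
    dO p x y (fj (sm p) a (l+1)) = dY p x y (fj (sm p) a l) ∧
    dY p x y (fj (sm p) a (l+1)) = dN p x y (fj (sm p) a l) := by
  obtain ⟨g, c⟩ := tt_false h
  have hns' := not_spec_succ ha g
  unfold dO dY dN
  rw [if_neg hns', if_neg c, fj_notL g]
  simp only
  push_cast
  rw [add_sub_cancel_right]
  exact ⟨rfl, rfl⟩

theorem d_true {l : ℕ} (h : tt (sm p) a l = true) :
    dO p x y (fj (sm p) a (l+1)) = dY p x y (fj (sm p) a l) ∧
    dY p x y (fj (sm p) a (l+1)) = dY p x y (fj (sm p) a l) - dN p x y (fj (sm p) a l)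
      - Real.pi/2 := by
  obtain ⟨i1, i2, i3, i4⟩ := fj_inv (s := sm p) ha l
  by_cases g : isL (sm p) a (fj (sm p) a l)
  · have hx := lst_idx g
    have hns : ¬ isS (sm p) (fj (sm p) a l) := fun h => not_both ha g h
    constructor
    · rcases Bool.eq_false_or_eq_true (sm p (fj (sm p) a l).1) with c | c
      · unfold dO dY
        rw [if_pos ((spec_succ g).mpr c), fj_isL g]
        have e : ((fj (sm p) a l).2 : ℤ) = ((a (fj (sm p) a l).1 : ℕ) : ℤ) - 1 := by
          have := hx.2 c; omega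
        rw [e]
        exact (H.hB _ i1 c).symm
      · unfold dO dY
        rw [if_neg (fun h => by rw [(spec_succ g).mp h] at c; exact absurd c (by decide)), fj_isL g]
        simp only
        have e : ((fj (sm p) a l).2 : ℤ) = ((a (fj (sm p) a l).1 : ℕ) : ℤ) := by
          have := hx.1 c; omega
        rw [e, show ((1:ℕ):ℤ) - 1 = 0 by norm_num]
        have := H.h0 _ i1 c
        unfold XA at this
        linarith
    · unfold dY dN
      rw [if_neg hns, fj_isL g]
      simp only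
      rcases Bool.eq_false_or_eq_true (sm p (fj (sm p) a l).1) with c | c
      · have e : ((fj (sm p) a l).2 : ℤ) = ((a (fj (sm p) a l).1 : ℕ) : ℤ) - 1 := by
          have := hx.2 c; omega
        have := H.hA _ i1 c
        rw [e, sub_add_cancel]
        rw [Nat.cast_one]
        linarith
      · have e : ((fj (sm p) a l).2 : ℤ) = ((a (fj (sm p) a l).1 : ℕ) : ℤ) := by
          have := hx.1 c; omega
        have := H.h1 _ i1 c
        rw [e, Nat.cast_one]
        linarith
  · have c : isS (sm p) (fj (sm p) a l) := (tt_true h).resolve_left g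
    have hns' := not_spec_succ ha g
    constructor
    · unfold dO dY
      rw [if_neg hns', fj_notL g]
      simp only
      push_cast
      rw [add_sub_cancel_right]
    · have c1 := c.1
      unfold dN
      rw [if_pos c]
      unfold dO dY
      rw [if_pos c, fj_notL g]
      simp only
      unfold WA
      rw [c1]
      push_cast
      ring

end moduli

/-! ## The structure -/

section structure_
variable (P : Per r p a x y) (ha : ∀ f, 3 ≤ a f)
include P ha

theorem fun_per {F : ℕ × ℕ → ℝ} (hF : ∀ f j, 1 ≤ f → F (f + r, j) = F (f, j)) (l : ℕ) :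
    F (fj (sm p) a (l + nl (sm p) a r)) = F (fj (sm p) a l) := by
  rw [fj_per P.sm P.a ha]
  exact hF _ _ (fj_inv ha l).1

theorem qn_per (l : ℕ) : qn p x y (fj (sm p) a (l + nl (sm p) a r)) = qn p x y (fj (sm p) a l) :=
  fun_per P ha (F := qn p x y) (fun f j hf => by
    unfold qn
    simp only
    rw [P.scl, P.sf hf]) l

theorem isS_per' {f j : ℕ} (hf : 1 ≤ f) : isS (sm p) (f + r, j) ↔ isS (sm p) (f, j) := by
  unfold isS
  simp only
  rw [show f + r - 1 = (f - 1) + r by omega, P.sm]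

theorem qy_per (l : ℕ) : qy p x y (fj (sm p) a (l + nl (sm p) a r)) = qy p x y (fj (sm p) a l) :=
  fun_per P ha (F := qy p x y) (fun f j hf => by
    have h := isS_per' P ha (j := j) hf
    unfold qy
    by_cases c : isS (sm p) (f, j)
    · rw [if_pos (h.mpr c), if_pos c]
      simp only
      rw [P.scl, P.zf]
    · rw [if_neg (fun h' => c (h.mp h')), if_neg c]
      simp only
      rw [P.scl, P.sf hf]) l

theorem qp_per (l : ℕ) : qp p x y (fj (sm p) a (l + nl (sm p) a r)) = qp p x y (fj (sm p) a l) :=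
  fun_per P ha (F := qp p x y) (fun f j hf => by
    have h := isS_per' P ha (j := j) hf
    unfold qp
    by_cases c : isS (sm p) (f, j)
    · rw [if_pos (h.mpr c), if_pos c]
      simp only
      rw [P.scl, P.sf hf]
    · rw [if_neg (fun h' => c (h.mp h')), if_neg c]
      simp only
      rw [P.scl, P.zf]) l

theorem qo_per (l : ℕ) : qo p x y (fj (sm p) a (l + nl (sm p) a r)) = qo p x y (fj (sm p) a l) :=
  fun_per P ha (F := qo p x y) (fun f j hf => by
    unfold qo
    simp only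
    rw [P.scl, P.sf hf]) l

theorem dO_per (l : ℕ) : dO p x y (fj (sm p) a (l + nl (sm p) a r)) = dO p x y (fj (sm p) a l) :=
  fun_per P ha (F := dO p x y) (fun f j hf => by
    have h := isS_per' P ha (j := j) hf
    unfold dO
    by_cases c : isS (sm p) (f, j)
    · rw [if_pos (h.mpr c), if_pos c]
      simp only
      rw [P.thf hf, P.thf hf]
    · rw [if_neg (fun h' => c (h.mp h')), if_neg c]
      simp only
      rw [P.zf, P.thf hf]) l

theorem dY_per (l : ℕ) : dY p x y (fj (sm p) a (l + nl (sm p) a r)) = dY p x y (fj (sm p) a l) :=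
  fun_per P ha (F := dY p x y) (fun f j hf => by
    unfold dY
    simp only
    rw [P.zf, P.thf hf]) l

theorem dN_per (l : ℕ) : dN p x y (fj (sm p) a (l + nl (sm p) a r)) = dN p x y (fj (sm p) a l) :=
  fun_per P ha (F := dN p x y) (fun f j hf => by
    have h := isS_per' P ha (j := j) hf
    unfold dN dO
    by_cases c : isS (sm p) (f, j)
    · rw [if_pos (h.mpr c), if_pos c, if_pos (h.mpr c), if_pos c]
      simp only
      rw [P.WA hf, P.thf hf, P.thf hf]
    · rw [if_neg (fun h' => c (h.mp h')), if_neg c]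
      simp only
      rw [P.zf, P.thf hf]) l

theorem pw_prv (i : Fin (nl (sm p) a r)) : pw (sm p) a r (prv i) = !(tt (sm p) a i.val) := by
  unfold pw
  rw [per_prv (g := tt (sm p) a) (fun l => tt_per P.sm P.a ha l)]

end structure_

theorem X_eq (q : ℕ × ℕ) : 2 * 0 - 2 * dY p x y q = XA p x y q.1 q.2 := by
  unfold dY XA
  ring

theorem W_eq (q : ℕ × ℕ) : 2 * dY p x y q - dO p x y q - dN p x y q
    = if isS (sm p) q then YA p x y q.1 q.2 else WA p x y q.1 q.2 := by
  unfold dN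
  split_ifs with c
  · unfold dY YA XA
    rw [c.1, Nat.cast_one]
    ring
  · unfold dO dY WA
    rw [if_neg c]
    ring

theorem Y_eq (q : ℕ × ℕ) : Real.pi - 2 * 0 + dO p x y q + dN p x y q
    = if isS (sm p) q then WA p x y q.1 q.2 else YA p x y q.1 q.2 := by
  have hX := X_eq (p := p) (x := x) (y := y) q
  have hW := W_eq (p := p) (x := x) (y := y) q
  have e : Real.pi - 2 * 0 + dO p x y q + dN p x y q
      = Real.pi - (2 * 0 - 2 * dY p x y q) - (2 * dY p x y q - dO p x y q - dN p x y q) := by ring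
  rw [e, hX, hW]
  split_ifs
  · unfold YA; ring
  · rfl

/-- the law of sines in the layers -/
theorem sine_layer (H : TBShape p a x y) (ha : ∀ f, 3 ≤ a f) (l : ℕ) :
    ∃ κ : ℝ, 0 < κ ∧
    Real.sin (XA p x y (fj (sm p) a l).1 (fj (sm p) a l).2)
      = κ * (qn p x y (fj (sm p) a l) * qo p x y (fj (sm p) a l)) ∧
    Real.sin (if isS (sm p) (fj (sm p) a l) then YA p x y (fj (sm p) a l).1 (fj (sm p) a l).2
      else WA p x y (fj (sm p) a l).1 (fj (sm p) a l).2) = κ * (qp p x y (fj (sm p) a l))^2 ∧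
    Real.sin (if isS (sm p) (fj (sm p) a l) then WA p x y (fj (sm p) a l).1 (fj (sm p) a l).2
      else YA p x y (fj (sm p) a l).1 (fj (sm p) a l).2) = κ * (qy p x y (fj (sm p) a l))^2 := by
  obtain ⟨i1, i2, i3, i4⟩ := fj_inv (s := sm p) ha l
  obtain ⟨p1, p2, p3⟩ := H.pos _ i1 (fj (sm p) a l).2 (by rw [mem_Icc]; omega)
  unfold qn qo qp qy
  set f := (fj (sm p) a l).1 with hf
  set j := (fj (sm p) a l).2 with hj
  have n0 : sf p x y f ((j:ℤ) - 1) ≠ 0 := by
    have e : ((j:ℤ) - 1) = ((j - 1 : ℕ) : ℤ) := by omega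
    rw [e]
    exact H.ne f i1 _ (by omega)
  have n1 : sf p x y f (j:ℤ) ≠ 0 := H.ne f i1 _ (by omega)
  have n2 : sf p x y f ((j:ℤ) + 1) ≠ 0 := by
    have e : ((j:ℤ) + 1) = ((j + 1 : ℕ) : ℤ) := by omega
    rw [e]
    exact H.ne f i1 _ (by omega)
  have hXpi : 2 * (Complex.sin (zf p x f)).arg - 2 * (sf p x y f (j:ℤ)).arg < Real.pi := by
    have : XA p x y f j < Real.pi := by
      unfold YA at p3
      linarith
    exact this
  obtain ⟨κ, k1, k2, k3, k4⟩ := sine_rule n0 n1 n2 (H.pne f i1) (ptolemy p x y f j) p1 hXpi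
  have hs : 0 < scl p x f := inv_pos.mpr (H.tne i1)
  have hk3 : Real.sin (WA p x y f j) = κ / (scl p x f)^2
      * (scl p x f * ‖Complex.sin (zf p x f)‖)^2 := by
    rw [show κ / (scl p x f)^2 * (scl p x f * ‖Complex.sin (zf p x f)‖)^2
      = κ * ‖Complex.sin (zf p x f)‖^2 by field_simp]
    exact k3
  have hk4 : Real.sin (YA p x y f j) = κ / (scl p x f)^2 * (scl p x f * ‖sf p x y f ↑j‖)^2 := by
    rw [show κ / (scl p x f)^2 * (scl p x f * ‖sf p x y f (↑j)‖)^2
      = κ * ‖sf p x y f (↑j)‖^2 by field_simp]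
    exact k4
  refine ⟨κ / (scl p x f)^2, by positivity, ?_, ?_, ?_⟩
  · rw [show κ / (scl p x f)^2 * (scl p x f * ‖sf p x y f (↑j + 1)‖
      * (scl p x f * ‖sf p x y f (↑j - 1)‖))
      = κ * (‖sf p x y f (↑j - 1)‖ * ‖sf p x y f (↑j + 1)‖) by field_simp]
    exact k2
  · by_cases c : isS (sm p) (fj (sm p) a l)
    · rw [if_pos c, if_pos c, hk4]
      have hj1 : j = 1 := c.1
      rw [hj1, Nat.cast_one]
    · rw [if_neg c, if_neg c]
      exact hk3
  · by_cases c : isS (sm p) (fj (sm p) a l)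
    · rw [if_pos c, if_pos c]
      exact hk3
    · rw [if_neg c, if_neg c]
      exact hk4

/-- the data of the structure -/
noncomputable def cShape (P : Per r p a x y) (H : TBShape p a x y) (ha : ∀ f, 3 ≤ a f) :
    CShape (pw (sm p) a r) where
  θo i := dO p x y (fj (sm p) a i.val)
  θy i := dY p x y (fj (sm p) a i.val)
  θn i := dN p x y (fj (sm p) a i.val)
  θp _ := 0
  le i := qn p x y (fj (sm p) a i.val)
  lp i := qp p x y (fj (sm p) a i.val)
  tr_not i h := by
    rw [pw_prv P ha] at h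
    have h' : tt (sm p) a i.val = false := by simpa using h
    obtain ⟨e1, e2⟩ := d_false H ha h'
    rw [per_nxt (g := fun l => dO p x y (fj (sm p) a l)) (dO_per P ha),
      per_nxt (g := fun l => dY p x y (fj (sm p) a l)) (dY_per P ha)]
    exact ⟨e1, e2, rfl⟩
  tr_st i h := by
    rw [pw_prv P ha] at h
    have h' : tt (sm p) a i.val = true := by simpa using h
    obtain ⟨e1, e2⟩ := d_true H ha h'
    rw [per_nxt (g := fun l => dO p x y (fj (sm p) a l)) (dO_per P ha),
      per_nxt (g := fun l => dY p x y (fj (sm p) a l)) (dY_per P ha), sub_zero, sub_zero, sub_zero]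
    exact ⟨e1, e2⟩
  lp_tr i := by
    rw [pw_prv P ha, per_nxt (g := fun l => qp p x y (fj (sm p) a l)) (qp_per P ha)]
    have hy : qn p x y (fj (sm p) a (prv i).val) = qy p x y (fj (sm p) a i.val) := by
      rw [← y_succ H ha]
      exact per_prv (g := fun l => qy p x y (fj (sm p) a l)) (qy_per P ha) i
    rw [hy]
    cases h' : tt (sm p) a i.val
    · exact (po_false H ha h').1
    · exact (po_true H ha h').1
  le_pos i := by
    obtain ⟨i1, i2, i3, i4⟩ := fj_inv (s := sm p) ha i.val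
    refine mul_pos (inv_pos.mpr (H.tne i1)) (norm_pos_iff.mpr ?_)
    exact H.ne _ i1 ((fj (sm p) a i.val).2 + 1) (by omega)
  posX i := by
    obtain ⟨i1, i2, i3, i4⟩ := fj_inv (s := sm p) ha i.val
    rw [X_eq]
    exact (H.pos _ i1 _ (by rw [mem_Icc]; omega)).1
  posW i := by
    obtain ⟨i1, i2, i3, i4⟩ := fj_inv (s := sm p) ha i.val
    have h := H.pos _ i1 (fj (sm p) a i.val).2 (by rw [mem_Icc]; omega)
    rw [W_eq]
    split_ifs
    · exact h.2.2
    · exact h.2.1
  posY i := by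
    obtain ⟨i1, i2, i3, i4⟩ := fj_inv (s := sm p) ha i.val
    have h := H.pos _ i1 (fj (sm p) a i.val).2 (by rw [mem_Icc]; omega)
    rw [Y_eq]
    split_ifs
    · exact h.2.1
    · exact h.2.2
  sine i := by
    obtain ⟨κ, k0, k1, k2, k3⟩ := sine_layer H ha i.val
    have hy : ∀ i : Fin (nl (sm p) a r), qn p x y (fj (sm p) a (prv i).val)
        = qy p x y (fj (sm p) a i.val) := by
      intro i
      rw [← y_succ H ha]
      exact per_prv (g := fun l => qy p x y (fj (sm p) a l)) (qy_per P ha) i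
    have ho : (if pw (sm p) a r (prv (prv i)) then qn p x y (fj (sm p) a (prv (prv i)).val)
        else qp p x y (fj (sm p) a (prv i).val)) = qo p x y (fj (sm p) a i.val) := by
      rw [pw_prv P ha, hy,
        ← per_prv (g := fun l => qo p x y (fj (sm p) a l)) (qo_per P ha) i]
      cases h' : tt (sm p) a (prv i).val
      · exact (po_false H ha h').2.symm
      · exact (po_true H ha h').2.symm
    refine ⟨κ, k0, ?_, ?_, ?_⟩
    · rw [X_eq, ho]
      exact k1
    · rw [W_eq]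
      exact k2
    · rw [Y_eq, hy]
      exact k3

/-- **the complete hyperbolic structure of the bundle** -/
noncomputable def cStructure (P : Per r p a x y) (H : TBShape p a x y) (hr : 1 ≤ r)
    (ha : ∀ f, 3 ≤ a f) (σ : Fin (nl (sm p) a r) → Bool) :
    IdealStructure (cTri (sm p) a r hr ha σ) :=
  (cShape P H ha).str σ (pw_ex ha hr)

theorem cStructure_volume (P : Per r p a x y) (H : TBShape p a x y) (hr : 1 ≤ r)
    (ha : ∀ f, 3 ≤ a f) (σ : Fin (nl (sm p) a r) → Bool) :
    (cStructure P H hr ha σ).volume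
      = ∑ f ∈ range r, ∑ j ∈ Icc 1 (a (f+1) - sg (sm p) (f+1)), volA p x y (f+1) j := by
  refine ((cShape P H ha).str_volume σ (pw_ex ha hr)).trans ?_
  rw [← sum_layers (s := sm p) ha (fun f j => volA p x y f ((j:ℕ):ℤ)) r,
    ← Fin.sum_univ_eq_sum_range (fun l => volA p x y (fj (sm p) a l).1 ((fj (sm p) a l).2 : ℤ))]
  apply sum_congr rfl
  intro i _
  have e1 : (cShape P H ha).X i = 2 * 0 - 2 * dY p x y (fj (sm p) a i.val) := rfl
  have e2 : (cShape P H ha).W i = 2 * dY p x y (fj (sm p) a i.val) - dO p x y (fj (sm p) a i.val)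
    - dN p x y (fj (sm p) a i.val) := rfl
  have e3 : (cShape P H ha).Y i = Real.pi - 2 * 0 + dO p x y (fj (sm p) a i.val)
    + dN p x y (fj (sm p) a i.val) := rfl
  rw [e1, e2, e3, X_eq, W_eq, Y_eq]
  unfold volA
  split_ifs
  · ring
  · ring

end Pool.Agent.Helper67.CYC
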