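import Pool.Agent.Helper67.CYC.Shape
import Pool.Agent.Helper67.CYC.Geo

/-! # Cyclic words: from critical points to shapes -/

namespace Pool.Agent.Helper67.CYC
open Complex Finset
open Pool.Agent.Helper5.TB (V Vx Vy)
open Pool.Agent.Helper15.TB (Near ph Sm)
open Pool.Agent.Helper67.TBM (zf phf phm sf thf XA WA YA volA sm sgA sg sg_le zz near_phf zf_eq
  norm_zf phf_add sin_sq_phf sign_fix' cj)
open Pool.Agent.Helper93.TB (sin_ne_of_small' G cos_ne_zero')

/-- Critical points of the cyclic potential: the variable `y j` couples `x j` and `x (j+1)`; all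
sequences are periodic with period `r`. -/
structure CritC (C δ : ℝ) (r : ℕ) (A : ℕ → ℝ) (x y : ℕ → ℂ) : Prop where
  perx : ∀ j, x (j + r) = x j
  pery : ∀ j, y (j + r) = y j
  hx : ∀ j, ‖x j + Real.pi / A j‖ ≤ C / (A j) ^ 2
  hy : ∀ j, ‖y j‖ ≤ δ
  ex : ∀ j, Vx (x (j + 1)) (y j) + Vx (x (j + 1)) (y (j + 1))
    + 2 * I * A (j + 1) / Real.pi * (x (j + 1) + Real.pi / A (j + 1)) = 0
  ey : ∀ j, Vy (x j) (y j) + Vy (x (j + 1)) (y j) = 0

/-- the critical value -/
noncomputable def cvalC (r : ℕ) (A : ℕ → ℝ) (x y : ℕ → ℂ) : ℂ :=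
  ∑ j ∈ range r, (V (x j) (y j) + V (x (j + 1)) (y j))
    + ∑ j ∈ range r, (I * A j / Real.pi * (x j) ^ 2 + 2 * I * x j)

/-- everything about one fan -/
structure Fan (p : ℕ → Bool) (a : ℕ → ℕ) (x y : ℕ → ℂ) (f : ℕ) : Prop where
  s0 : Sm (a f) (zf p x f)
  ml : Near (zf p x f) (phm p x y f)
  pl : Near (zf p x f) (phq p x y f)
  eq : ((a f : ℕ) : ℂ) * zf p x f = Real.pi + phm p x y f + phq p x y f

theorem sm_of_crit {C δ : ℝ} {p : ℕ → Bool} {r : ℕ} {a : ℕ → ℕ} {x y : ℕ → ℂ}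
    (ha : ∀ f, 400 ≤ a f) (haC : ∀ f, 4 * C ≤ a f) (h : CritC C δ r (sgA p a) x y) (f : ℕ) :
    Sm (a f) (zf p x f) := by
  have ha0 : 0 < a f := by
    have := ha f
    omega
  have hap : (0:ℝ) < a f := by exact_mod_cast ha0
  refine ⟨ha f, ?_⟩
  have h1 := h.hx f
  have h2 : C / (sgA p a f) ^ 2 ≤ 1 / 4 / a f := by
    have h3 : (sgA p a f) ^ 2 = (a f : ℝ) ^ 2 := by
      unfold sgA
      split_ifs
      · rfl
      · rw [neg_sq]
    rw [h3, div_div, div_le_div_iff₀ (by positivity) (by positivity)]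
    have := haC f
    nlinarith
  refine le_trans (le_of_eq ?_) (h1.trans h2)
  by_cases hp : p f = true
  · have e1 : sgA p a f = a f := if_pos hp
    have e2 : zf p x f = -(starRingEnd ℂ) (x f) := if_pos hp
    rw [e1, e2]
    have e3 : -(starRingEnd ℂ) (x f) - Real.pi / (a f : ℂ)
        = -(starRingEnd ℂ) (x f + Real.pi / ((a f : ℝ) : ℂ)) := by
      rw [map_add, map_div₀, conj_ofReal, conj_ofReal]
      push_cast
      ring
    rw [e3, norm_neg, Complex.norm_conj]
  · have e1 : sgA p a f = -(a f : ℝ) := if_neg hp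
    have e2 : zf p x f = x f := if_neg hp
    rw [e1, e2]
    congr 1
    push_cast
    rw [div_neg, sub_eq_add_neg]

/-- The facts about the fans which follow from the critical equations. -/
theorem fan_of_crit {C δ : ℝ} {p : ℕ → Bool} {r : ℕ} {a : ℕ → ℕ} {x y : ℕ → ℂ} (hδ : δ ≤ 1 / 100)
    (ha : ∀ f, 400 ≤ a f) (haC : ∀ f, 4 * C ≤ a f) (h : CritC C δ r (sgA p a) x y) {f : ℕ}
    (hf : 1 ≤ f) : Fan p a x y f := by
  have ha0 : 0 < a f := by
    have := ha f
    omega
  have hap : (0:ℝ) < a f := by exact_mod_cast ha0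
  have hac : ((a f : ℕ) : ℂ) ≠ 0 := by exact_mod_cast ha0.ne'
  have hpi : (Real.pi : ℂ) ≠ 0 := ofReal_ne_zero.mpr Real.pi_ne_zero
  have hsm := sm_of_crit ha haC h f
  have hxs : ‖x f‖ ≤ 1 / 100 := by
    rw [← norm_zf p]
    exact hsm.norm
  have hm : phm p x y f = phf p f (Vx (x f) (y (f - 1))) := if_pos (by omega)
  refine ⟨hsm, ?_, ?_, ?_⟩
  · rw [hm, zf_eq]
    exact near_phf hxs ((h.hy (f - 1)).trans hδ)
  · unfold phq
    rw [zf_eq]
    exact near_phf hxs ((h.hy f).trans hδ)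
  · obtain ⟨g, rfl⟩ : ∃ g, f = g + 1 := ⟨f - 1, by omega⟩
    have hex := h.ex g
    rw [Nat.add_sub_cancel] at hm
    unfold phq
    rw [add_assoc, hm, ← phf_add]
    set D := Vx (x (g + 1)) (y g) + Vx (x (g + 1)) (y (g + 1)) with hD
    by_cases hp : p (g + 1) = true
    · have e1 : sgA p a (g + 1) = a (g + 1) := if_pos hp
      have e2 : zf p x (g + 1) = -(starRingEnd ℂ) (x (g + 1)) := if_pos hp
      have e3 : phf p (g + 1) D = -(starRingEnd ℂ) (I * Real.pi / 2 * D) := if_pos hp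
      have e4 : I * Real.pi / 2 * D = a (g + 1) * x (g + 1) + Real.pi := by
        have h5 : D = -(2 * I * (a (g + 1) : ℂ) / Real.pi
            * (x (g + 1) + Real.pi / (a (g + 1) : ℂ))) := by
          rw [e1] at hex
          push_cast at hex
          linear_combination hex
        rw [h5]
        field_simp
        linear_combination (-(a (g + 1) * x (g + 1) + Real.pi) : ℂ) * I_sq
      rw [e3, e4, e2, map_add, map_mul, conj_ofReal, Complex.conj_natCast]
      ring
    · have e1 : sgA p a (g + 1) = -(a (g + 1) : ℝ) := if_neg hp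
      have e2 : zf p x (g + 1) = x (g + 1) := if_neg hp
      have e3 : phf p (g + 1) D = -(I * Real.pi / 2 * D) := if_neg hp
      have e4 : I * Real.pi / 2 * D = -(a (g + 1) * x (g + 1)) + Real.pi := by
        have h5 : D = -(2 * I * (-(a (g + 1) : ℂ)) / Real.pi
            * (x (g + 1) + Real.pi / (-(a (g + 1) : ℂ)))) := by
          rw [e1] at hex
          push_cast at hex
          linear_combination hex
        rw [h5]
        field_simp
        linear_combination ((a (g + 1) * x (g + 1) - Real.pi) : ℂ) * I_sq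
      rw [e3, e4, e2]
      ring

/-- the shape equations from the critical equations -/
theorem sc_of_crit {C : ℝ} {p : ℕ → Bool} {r : ℕ} {a : ℕ → ℕ} {x y : ℕ → ℂ}
    (ha : ∀ f, 1000 ≤ a f) (haC : ∀ f, 4 * C ≤ a f)
    (h : CritC C (1 / 100) r (sgA p a) x y) :
    SC (sm p) a (zf p x) (phm p x y) (phq p x y) := by
  have ha' : ∀ f, 400 ≤ a f := fun f => le_trans (by norm_num) (ha f)
  have hfan : ∀ f, 1 ≤ f → Fan p a x y f := fun f hf => fan_of_crit le_rfl ha' haC h hf
  have hsm : ∀ f, Sm (a f) (zf p x f) := fun f => sm_of_crit ha' haC h f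
  have hz : ∀ f, ‖zf p x f‖ ≤ 1 / 100 := fun f => (hsm f).norm
  have hx : ∀ f, ‖x f‖ ≤ 1 / 100 := fun f => by rw [← norm_zf p]; exact hz f
  have hx0 : ∀ f, x f ≠ 0 := by
    intro f h0
    have h1 := (hsm f).ne
    have h2 := norm_zf p x f
    rw [h0, norm_zero, norm_eq_zero] at h2
    exact h1 h2
  have hsx : ∀ f, sin (x f) ≠ 0 := fun f => sin_ne_of_small' (hx0 f) (hx f)
  have hy : ∀ f, ‖y f‖ ≤ 1 / 100 := fun f => h.hy f
  have npq : ∀ f, Near (zf p x f) (phq p x y f) := by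
    intro f
    unfold phq
    rw [zf_eq]
    exact near_phf (hx f) (hy f)
  refine ⟨ha, hz, fun f hf => (hfan f hf).eq, ?_, ?_, ?_, ?_⟩
  · intro f
    apply sign_fix' (hz f) (hsm f).ne (hz (f + 1)) (npq f)
    exact sin_sq_phf (hx f) (hx _) (hy f) (hsx f) (h.ey f)
  · intro f
    apply sign_fix' (hz (f + 1)) (hsm (f + 1)).ne (hz f) (hfan (f + 1) (by omega)).ml
    have e : phm p x y (f + 1) = phf p (f + 1) (Vx (x (f + 1)) (y f)) := if_pos (by omega)
    have e2 : sm p f = (p (f + 1) == p f) := by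
      unfold sm
      rw [Bool.beq_comm]
    rw [e, e2]
    refine sin_sq_phf (hx _) (hx f) (hy f) (hsx _) ?_
    rw [add_comm]
    exact h.ey f
  · intro f
    exact ((npq f).norm (hz f)).trans (by norm_num)
  · intro f hf
    exact ((hfan f hf).ml.norm (hz f)).trans (by norm_num)

variable {p : ℕ → Bool} {r : ℕ} {a : ℕ → ℕ} {x y : ℕ → ℂ}

/-- the data which the triangulation needs -/
theorem SC.tbShape (h : SC (sm p) a (zf p x) (phm p x y) (phq p x y)) (P : Per r p a x y)
    (hr : 1 ≤ r) : TBShape p a x y := by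
  refine ⟨?_, ?_, fun f hf => (h.tp hf).1, ?_,
    fun f hf => (h.len hf).1, fun f hf => (h.len hf).2, fun f hf hs => h.len0 hf hs,
    ?_, ?_, fun f hf hs => h.len1 hf hs,
    fun f hf hs => (h.arg_s hf hs).1, fun f hf hs => (h.arg_s hf hs).2⟩
  · intro f hf j hj
    rw [← P.XA hf, ← P.WA hf, ← P.YA hf]
    have hb := h.big (f + r)
    have hs := sg_le (s := sm p) (f + r)
    have hsg : sg (sm p) (f + r) = sg (sm p) f := by unfold sg; rw [P.sm]
    rw [mem_Icc, ← P.a f, ← hsg] at hj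
    have h1 : (if sm p (f + r - 1) then (1:ℤ) else 0) ≤ (j:ℤ) := by
      split_ifs <;> omega
    have h2 : (j:ℤ) ≤ if sm p (f + r) then (a (f + r) : ℤ) - 1 else a (f + r) := by
      have h3 := hj.2
      unfold sg at h3
      split_ifs at h3 ⊢ <;> omega
    exact h.pos (by omega) h1 h2
  · intro f hf j hj
    exact h.ne hf (j := (j : ℤ)) (by omega) (by omega)
  · intro f _
    exact cos_ne_zero' (by linarith [h.hz f])
  · intro f hf hs
    have h1 := h.hinge_ang (f := f + r) (by omega) (by rw [P.sm]; exact hs)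
    rw [← P.XA (show 1 ≤ f + 1 by omega), ← P.XA hf, show f + 1 + r = f + r + 1 by ring]
    have : a f = a (f + r) := (P.a f).symm
    rw [this]
    exact h1
  · intro f hf hs
    have := h.arg_stop hf hs
    change (G (zf p x (f + 1)) (phm p x y (f + 1)) 1).arg - (sin (zf p x (f + 1))).arg
      = (G (zf p x f) (phm p x y f) (a f)).arg - (G (zf p x f) (phm p x y f) (a f + 1)).arg
        - Real.pi / 2
    linarith

/-- **Shapes from critical points.** -/
theorem tbShape_of_crit (C : ℝ) : ∃ T : ℕ, ∃ δ > 0, ∀ (r : ℕ) (p : ℕ → Bool) (a : ℕ → ℕ)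
    (x y : ℕ → ℂ), 1 ≤ r → (∀ f, T ≤ a f) → (∀ f, p (f + r) = p f) → (∀ f, a (f + r) = a f) →
    CritC C δ r (sgA p a) x y → Per r p a x y ∧ TBShape p a x y := by
  refine ⟨max 1000 ⌈4 * C⌉₊, 1 / 100, by norm_num, fun r p a x y hr hT hp ha h => ?_⟩
  have h1 : ∀ f, 1000 ≤ a f := fun f => (le_max_left _ _).trans (hT f)
  have h2 : ∀ f, 4 * C ≤ a f := by
    intro f
    have h1 : ⌈4 * C⌉₊ ≤ a f := (le_max_right _ _).trans (hT f)
    exact (Nat.le_ceil _).trans (by exact_mod_cast h1)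
  have P : Per r p a x y := ⟨hp, ha, h.perx, h.pery⟩
  exact ⟨P, (sc_of_crit h1 h2 h).tbShape P hr⟩

end Pool.Agent.Helper67.CYC
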