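import Pool.Agent.Helper67.CYC.Str
import Pool.Agent.Helper67.TBM.Pos

/-! # Cyclic words given by exponents of arbitrary signs

The fans are numbered `1, 2, …, r` and periodically continued.  The layer `l` is the layer number
`(fj s a l).2` of the fan number `(fj s a l).1`; `s f` says whether the exponents of the fans `f`
and `f+1` have the same sign. -/

namespace Pool.Agent.Helper67.CYC
open Finset Pool.Agent.Helper5.TV Pool.Agent.Helper5.Cov Pool.Agent.Helper52.OC
open Pool.Agent.Helper67.TBM (sg sg_le)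

/-- the layer is the last one of its fan -/
def isL (s : ℕ → Bool) (a : ℕ → ℕ) (q : ℕ × ℕ) : Prop := q.2 + sg s q.1 = a q.1

instance (s : ℕ → Bool) (a : ℕ → ℕ) (q : ℕ × ℕ) : Decidable (isL s a q) := by
  unfold isL; infer_instance

/-- the layer is the first one after a hinge with equal signs -/
def isS (s : ℕ → Bool) (q : ℕ × ℕ) : Prop := q.2 = 1 ∧ s (q.1 - 1) = true

instance (s : ℕ → Bool) (q : ℕ × ℕ) : Decidable (isS s q) := by
  unfold isS; infer_instance

/-- fan of the layer `l` and number of the layer in its fan -/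
def fj (s : ℕ → Bool) (a : ℕ → ℕ) : ℕ → ℕ × ℕ
  | 0 => (1, 1)
  | l+1 => if isL s a (fj s a l) then ((fj s a l).1 + 1, 1) else ((fj s a l).1, (fj s a l).2 + 1)

/-- number of the layers of the first `r` fans -/
def nl (s : ℕ → Bool) (a : ℕ → ℕ) (r : ℕ) : ℕ := ∑ f ∈ range r, (a (f+1) - sg s (f+1))

/-- the layers where the old pivot is flipped in the next layer -/
def tt (s : ℕ → Bool) (a : ℕ → ℕ) (l : ℕ) : Bool := decide (isL s a (fj s a l) ∨ isS s (fj s a l))

variable {s : ℕ → Bool} {a : ℕ → ℕ} {r : ℕ}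

theorem fj_succ (l : ℕ) : fj s a (l+1)
    = if isL s a (fj s a l) then ((fj s a l).1 + 1, 1) else ((fj s a l).1, (fj s a l).2 + 1) := rfl

theorem fj_isL {l : ℕ} (h : isL s a (fj s a l)) : fj s a (l+1) = ((fj s a l).1 + 1, 1) := by
  rw [fj_succ, if_pos h]

theorem fj_notL {l : ℕ} (h : ¬ isL s a (fj s a l)) :
    fj s a (l+1) = ((fj s a l).1, (fj s a l).2 + 1) := by
  rw [fj_succ, if_neg h]

/-- basic facts on `fj` -/
theorem fj_inv (ha : ∀ f, 3 ≤ a f) (l : ℕ) :
    1 ≤ (fj s a l).1 ∧ 1 ≤ (fj s a l).2 ∧ (fj s a l).2 + sg s (fj s a l).1 ≤ a (fj s a l).1 ∧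
      l + 1 = nl s a ((fj s a l).1 - 1) + (fj s a l).2 := by
  induction l with
  | zero =>
    have h1 := ha 1
    have h2 := sg_le (s := s) 1
    refine ⟨le_rfl, le_rfl, ?_, ?_⟩
    · change 1 + sg s 1 ≤ a 1
      omega
    · change 0 + 1 = nl s a (1 - 1) + 1
      simp [nl]
  | succ l ih =>
    obtain ⟨i1, i2, i3, i4⟩ := ih
    by_cases h : isL s a (fj s a l)
    · rw [fj_isL h]
      have h1 := ha ((fj s a l).1 + 1)
      have h2 := sg_le (s := s) ((fj s a l).1 + 1)
      refine ⟨by simp only; omega, le_rfl, by simp only; omega, ?_⟩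
      simp only
      obtain ⟨g, hg⟩ : ∃ g, (fj s a l).1 = g + 1 := ⟨(fj s a l).1 - 1, by omega⟩
      unfold isL at h
      rw [hg] at i4 h ⊢
      rw [Nat.add_sub_cancel] at i4 ⊢
      have e : nl s a (g + 1) = nl s a g + (a (g+1) - sg s (g+1)) := sum_range_succ _ _
      rw [e]
      omega
    · rw [fj_notL h]
      unfold isL at h
      refine ⟨i1, by simp only; omega, by simp only; omega, ?_⟩
      simp only
      omega

/-- `fj` is determined by these facts -/
theorem nl_lt (ha : ∀ f, 3 ≤ a f) (k : ℕ) : nl s a k + 2 ≤ nl s a (k+1) := by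
  have h1 := ha (k+1)
  have h2 := sg_le (s := s) (k+1)
  have e : nl s a (k + 1) = nl s a k + (a (k+1) - sg s (k+1)) := sum_range_succ _ _
  omega

theorem nl_mono (ha : ∀ f, 3 ≤ a f) {k m : ℕ} (h : k < m) : nl s a k + 2 ≤ nl s a m := by
  induction m with
  | zero => omega
  | succ m ih =>
    have := nl_lt (s := s) ha m
    rcases Nat.lt_or_ge k m with h1 | h1
    · have := ih h1
      omega
    · have : k = m := by omega
      subst this
      exact nl_lt ha k

theorem fj_eq (ha : ∀ f, 3 ≤ a f) {l g j : ℕ} (h1 : 1 ≤ j) (h2 : j + sg s (g+1) ≤ a (g+1))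
    (h3 : l + 1 = nl s a g + j) : fj s a l = (g + 1, j) := by
  obtain ⟨i1, i2, i3, i4⟩ := fj_inv (s := s) ha l
  obtain ⟨g', hg'⟩ : ∃ g', (fj s a l).1 = g' + 1 := ⟨(fj s a l).1 - 1, by omega⟩
  rw [hg', Nat.add_sub_cancel] at i4
  rw [hg'] at i3
  have e1 : nl s a (g + 1) = nl s a g + (a (g+1) - sg s (g+1)) := sum_range_succ _ _
  have e2 : nl s a (g' + 1) = nl s a g' + (a (g'+1) - sg s (g'+1)) := sum_range_succ _ _
  have hgg : g' = g := by
    rcases Nat.lt_trichotomy g' g with h | h | h
    · have : nl s a (g'+1) ≤ nl s a g := by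
        rcases Nat.lt_or_ge (g'+1) g with h' | h'
        · have := nl_mono (s := s) ha h'
          omega
        · have : g = g' + 1 := by omega
          rw [this]
      omega
    · exact h
    · have : nl s a (g+1) ≤ nl s a g' := by
        rcases Nat.lt_or_ge (g+1) g' with h' | h'
        · have := nl_mono (s := s) ha h'
          omega
        · have : g' = g + 1 := by omega
          rw [this]
      omega
  subst hgg
  apply Prod.ext
  · exact hg'
  · simp only
    omega

theorem fj_top (ha : ∀ f, 3 ≤ a f) (k : ℕ) : fj s a (nl s a k) = (k + 1, 1) := by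
  have h1 := ha (k+1)
  have h2 := sg_le (s := s) (k+1)
  exact fj_eq ha le_rfl (by omega) rfl

/-- a layer is not both the last one and special -/
theorem not_both (ha : ∀ f, 3 ≤ a f) {q : ℕ × ℕ} (h : isL s a q) (h' : isS s q) : False := by
  unfold isL at h
  obtain ⟨h3, h4⟩ := h'
  have := ha q.1
  have := sg_le (s := s) q.1
  omega

section periodic
variable (hs : ∀ f, s (f + r) = s f) (ha' : ∀ f, a (f + r) = a f)
include hs ha'

theorem sg_per (f : ℕ) : sg s (f + r) = sg s f := by unfold sg; rw [hs]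

theorem isL_per (f j : ℕ) : isL s a (f + r, j) ↔ isL s a (f, j) := by
  unfold isL
  simp only
  rw [sg_per hs ha', ha']

theorem fj_per (ha : ∀ f, 3 ≤ a f) (l : ℕ) :
    fj s a (l + nl s a r) = ((fj s a l).1 + r, (fj s a l).2) := by
  induction l with
  | zero =>
    rw [zero_add, fj_top ha r]
    change (r + 1, 1) = (1 + r, 1)
    rw [add_comm]
  | succ l ih =>
    rw [show l + 1 + nl s a r = (l + nl s a r) + 1 by ring, fj_succ, fj_succ, ih]
    have h := isL_per hs ha' (fj s a l).1 (fj s a l).2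
    by_cases g : isL s a (fj s a l)
    · rw [if_pos (h.mpr g), if_pos g]
      simp only
      congr 1
      ring
    · rw [if_neg (fun g' => g (h.mp g')), if_neg g]

theorem isS_per {f j : ℕ} (hf : 1 ≤ f) : isS s (f + r, j) ↔ isS s (f, j) := by
  unfold isS
  simp only
  rw [show f + r - 1 = (f - 1) + r by omega, hs]

theorem tt_per (ha : ∀ f, 3 ≤ a f) (l : ℕ) : tt s a (l + nl s a r) = tt s a l := by
  unfold tt
  rw [fj_per hs ha' ha]
  have h1 := isL_per hs ha' (fj s a l).1 (fj s a l).2
  have h2 := isS_per hs ha' (f := (fj s a l).1) (j := (fj s a l).2) (fj_inv ha l).1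
  rw [decide_eq_decide, h1, h2]

end periodic

/-! ## Periodic functions on the cycle -/

theorem per_nxt {α : Type*} {N : ℕ} {g : ℕ → α} (hg : ∀ l, g (l + N) = g l) (i : Fin N) :
    g (finRotate N i).val = g (i.val + 1) := by
  obtain ⟨n, rfl⟩ : ∃ n, N = n+1 := ⟨N-1, by have := i.2; omega⟩
  rw [val_nxt]
  rcases Nat.lt_or_ge (i.val + 1) (n + 1) with h | h
  · rw [Nat.mod_eq_of_lt h]
  · have : i.val + 1 = n + 1 := by have := i.2; omega
    rw [this, Nat.mod_self]
    have := hg 0
    rw [zero_add] at this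
    exact this.symm

theorem per_prv {α : Type*} {N : ℕ} {g : ℕ → α} (hg : ∀ l, g (l + N) = g l) (i : Fin N) :
    g ((prv i).val + 1) = g i.val := by
  have := per_nxt hg (prv i)
  rw [nxt_prv] at this
  exact this.symm

/-- the word of the layered triangulation -/
def pw (s : ℕ → Bool) (a : ℕ → ℕ) (r : ℕ) : Fin (nl s a r) → Bool := fun i => !(tt s a (i.val + 1))

theorem pw_ex (ha : ∀ f, 3 ≤ a f) (hr : 1 ≤ r) : ∃ i, pw s a r i = false := by
  have h1 := ha 1
  have h2 := sg_le (s := s) 1
  have h3 := nl_mono (s := s) ha (show 0 < r by omega)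
  have h4 : nl s a (0 + 1) = nl s a 0 + (a (0+1) - sg s (0+1)) := sum_range_succ _ _
  have h5 : nl s a 0 = 0 := by simp [nl]
  have h6 : nl s a 1 ≤ nl s a r := by
    rcases Nat.lt_or_ge 1 r with h | h
    · have := nl_mono (s := s) ha h
      omega
    · have : r = 1 := by omega
      rw [this]
  rw [zero_add] at h4
  refine ⟨⟨a 1 - sg s 1 - 2, by omega⟩, ?_⟩
  have h7 : fj s a (a 1 - sg s 1 - 2 + 1) = (0 + 1, a 1 - sg s 1) :=
    fj_eq ha (by omega) (by rw [zero_add]; omega) (by rw [h5]; omega)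
  unfold pw tt
  simp only
  rw [h7, decide_eq_true (Or.inl (by unfold isL; simp only [zero_add]; omega))]
  rfl

/-- the layered triangulation of the punctured torus bundle with the monodromy
`± ∏ [[A_f, -1], [1, 0]]`, `a f = |A_f|`, `s f` telling whether `A_f` and `A_{f+1}` have the same
sign -/
def cTri (s : ℕ → Bool) (a : ℕ → ℕ) (r : ℕ) (hr : 1 ≤ r) (ha : ∀ f, 3 ≤ a f)
    (σ : Fin (nl s a r) → Bool) : IdealTri :=
  word (nl s a r) (pw s a r) σ (pw_ex ha hr)

/-! ## Sums over the layers -/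

theorem sum_layers (ha : ∀ f, 3 ≤ a f) (F : ℕ → ℕ → ℝ) (r : ℕ) :
    ∑ l ∈ range (nl s a r), F (fj s a l).1 (fj s a l).2
      = ∑ f ∈ range r, ∑ j ∈ Icc 1 (a (f+1) - sg s (f+1)), F (f+1) j := by
  induction r with
  | zero => simp [nl]
  | succ r ih =>
    rw [sum_range_succ (fun f => ∑ j ∈ Icc 1 (a (f+1) - sg s (f+1)), F (f+1) j), ← ih]
    have e : nl s a (r + 1) = nl s a r + (a (r+1) - sg s (r+1)) := sum_range_succ _ _
    rw [e, sum_range_add]
    congr 1
    have e2 : Icc 1 (a (r+1) - sg s (r+1)) = (range (a (r+1) - sg s (r+1))).image (· + 1) := by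
      ext j
      simp only [mem_Icc, mem_image, mem_range]
      constructor
      · intro h
        exact ⟨j - 1, by omega, by omega⟩
      · rintro ⟨i, h1, rfl⟩
        omega
    rw [e2, sum_image (by intro i _ j _ h; simpa using h)]
    apply sum_congr rfl
    intro i hi
    rw [mem_range] at hi
    rw [fj_eq (g := r) (j := i + 1) ha (by omega) (by omega) (by omega)]

end Pool.Agent.Helper67.CYC
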