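import Pool.Agent.Helper67.TBM.Link

/-! # Cyclic words: shapes of the layers (all fans are in the middle) -/

namespace Pool.Agent.Helper67.CYC
open Complex
open Pool.Agent.Helper67.TBM (cj cj_cos norm_cj cos_match_s hinge_rel_s)
open Pool.Agent.Helper93.TB (phase_small mid_basic tp_arg hinge_args G G_symm mid_fan arg_between
  G_mul G_zero hinge_im hinge_rel cos_ne_zero' layer tri arg_swap Ar Ar_neg_I norm_cos_sub)

/-- the shape equations -/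
structure SC (s : ℕ → Bool) (a : ℕ → ℕ) (z m q : ℕ → ℂ) : Prop where
  big : ∀ f, 1000 ≤ a f
  hz : ∀ f, ‖z f‖ ≤ 1 / 100
  he : ∀ f, 1 ≤ f → (a f : ℂ) * z f = Real.pi + m f + q f
  hq : ∀ f, sin (q f) = I * tan (z f) * cj (s f) (cos (z (f + 1)))
  hm : ∀ f, sin (m (f + 1)) = I * tan (z (f + 1)) * cj (s f) (cos (z f))
  qn : ∀ f, ‖q f‖ ≤ 1 / 10
  mn : ∀ f, 1 ≤ f → ‖m f‖ ≤ 1 / 10

namespace SC
variable {s : ℕ → Bool} {a : ℕ → ℕ} {z m q : ℕ → ℂ} (h : SC s a z m q)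
include h

theorem qsmall (f : ℕ) : ‖q f - I * z f‖ ≤ ‖z f‖ / 1000 := by
  obtain ⟨w, hw, e⟩ := cj_cos (s f) (z (f + 1))
  exact phase_small (z' := w) (h.hz f) (by rw [hw]; exact h.hz (f + 1)) (h.qn f)
    (by rw [← e]; exact h.hq f)

theorem msmall {f : ℕ} (hf : 1 ≤ f) : ‖m f - I * z f‖ ≤ ‖z f‖ / 1000 := by
  obtain ⟨g, rfl⟩ : ∃ g, f = g + 1 := ⟨f - 1, by omega⟩
  obtain ⟨w, hw, e⟩ := cj_cos (s g) (z g)
  exact phase_small (z' := w) (h.hz _) (by rw [hw]; exact h.hz g) (h.mn _ hf)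
    (by rw [← e]; exact h.hm g)

theorem he' {f : ℕ} (hf : 1 ≤ f) : ((a f : ℤ) : ℂ) * z f = Real.pi + m f + q f := by
  push_cast
  exact h.he f hf

theorem sector {f : ℕ} (hf : 1 ≤ f) : 0 < (z f).re ∧ (z f).re ≤ 1 / 100 ∧ 0 < (z f).im ∧
    (z f).im ≤ (z f).re / 100 := by
  have hb : (1000:ℝ) ≤ ((a f : ℕ) : ℝ) := by exact_mod_cast h.big f
  have he : (((a f : ℕ) : ℝ) : ℂ) * z f = Real.pi + m f + q f := by
    push_cast; exact h.he f hf
  obtain ⟨p1, p2, p3, p4, -⟩ := mid_basic hb (h.hz f) (h.msmall hf) (h.qsmall f) he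
  exact ⟨p1, p2, p3, p4⟩

theorem tp {f : ℕ} (hf : 1 ≤ f) : sin (z f) ≠ 0 ∧ 0 < (sin (z f)).arg ∧
    (sin (z f)).arg ≤ 1 / 20 := by
  obtain ⟨p1, p2, p3, p4⟩ := h.sector hf
  exact tp_arg p1 p2 p3 p4 (h.hz f)

/-- the first end of a fan is a hinge -/
theorem start {f : ℕ} (hf : 1 ≤ f) :
    (G (z f) (m f) 1 ≠ 0 ∧ |(G (z f) (m f) 1).arg + Real.pi / 4| ≤ 1 / 20) ∧
    (G (z f) (m f) 0 ≠ 0 ∧ |(G (z f) (m f) 0).arg + Real.pi / 2| ≤ 1 / 20) ∧
    (G (z f) (m f) (-1) ≠ 0 ∧ |(G (z f) (m f) (-1)).arg + 3 * Real.pi / 4| ≤ 1 / 20) := by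
  obtain ⟨p1, p2, p3, p4⟩ := h.sector hf
  exact hinge_args p1 p3 p4 (h.hz f) (h.msmall hf)

/-- the second end of a fan is a hinge -/
theorem stop {f : ℕ} (hf : 1 ≤ f) :
    (G (z f) (m f) (a f - 1) ≠ 0 ∧ |(G (z f) (m f) (a f - 1)).arg + Real.pi / 4| ≤ 1 / 20) ∧
    (G (z f) (m f) (a f) ≠ 0 ∧ |(G (z f) (m f) (a f)).arg + Real.pi / 2| ≤ 1 / 20) ∧
    (G (z f) (m f) (a f + 1) ≠ 0 ∧
      |(G (z f) (m f) (a f + 1)).arg + 3 * Real.pi / 4| ≤ 1 / 20) := by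
  obtain ⟨p1, p2, p3, p4⟩ := h.sector hf
  have := hinge_args p1 p3 p4 (h.hz f) (h.qsmall f)
  rw [G_symm (h.he' hf), G_symm (h.he' hf) (a f : ℤ),
    G_symm (h.he' hf) ((a f : ℤ) + 1)]
  simpa using this

/-- interior of the fans -/
theorem inner {f : ℕ} (hf : 1 ≤ f) {j : ℤ} (h1 : 1 ≤ j) (h2 : j ≤ (a f : ℤ) - 1) :
    (sin (z f)).arg - Real.pi / 2 < (G (z f) (m f) j).arg ∧
    (G (z f) (m f) j).arg < (sin (z f)).arg ∧ G (z f) (m f) j ≠ 0 ∧
    0 < (sin (z f) ^ 2 / G (z f) (m f) j ^ 2).im := by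
  have hpi := Real.pi_gt_three
  have hb : (1000:ℤ) ≤ (a f : ℤ) := by exact_mod_cast h.big f
  have ht := h.tp hf
  have key := mid_fan hb (h.hz f) (h.msmall hf) (h.qsmall f) (h.he' hf) h1 h2
  exact arg_between key.1 key.2 ht.2.1 (by linarith [ht.2.2])

/-- the arguments of consecutive values differ by less than `π/2` -/
theorem consec {f : ℕ} (hf : 1 ≤ f) {j : ℤ} (h1 : -1 ≤ j) (h2 : j + 1 ≤ (a f : ℤ) + 1) :
    |(G (z f) (m f) j).arg - (G (z f) (m f) (j + 1)).arg| < Real.pi / 2 := by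
  have hpi := Real.pi_gt_three
  have hb : (1000:ℤ) ≤ (a f : ℤ) := by exact_mod_cast h.big f
  rcases lt_or_ge j 1 with c1 | c1
  · obtain ⟨⟨-, s1⟩, ⟨-, s2⟩, ⟨-, s3⟩⟩ := h.start hf
    have s1 := abs_le.mp s1
    have s2 := abs_le.mp s2
    have s3 := abs_le.mp s3
    rcases (show j = 0 ∨ j = -1 by omega) with c | c
    · subst c
      rw [zero_add, abs_lt]
      constructor <;> linarith
    · subst c
      have : (-1 : ℤ) + 1 = 0 := by norm_num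
      rw [this, abs_lt]
      constructor <;> linarith
  · rcases le_or_gt (j + 1) (a f - 1) with c2 | c2
    · have i1 := h.inner hf c1 (by omega : j ≤ a f - 1)
      have i2 := h.inner hf (by omega : 1 ≤ j + 1) c2
      rw [abs_lt]
      constructor <;> linarith
    · obtain ⟨⟨-, s1⟩, ⟨-, s2⟩, ⟨-, s3⟩⟩ := h.stop hf
      have s1 := abs_le.mp s1
      have s2 := abs_le.mp s2
      have s3 := abs_le.mp s3
      rcases (show j = a f - 1 ∨ j = a f by omega) with c | c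
      · subst c
        rw [sub_add_cancel, abs_lt]
        constructor <;> linarith
      · subst c
        rw [abs_lt]
        constructor <;> linarith

/-- the range of `X` -/
theorem xrange {f : ℕ} (hf : 1 ≤ f) {j : ℤ} (h1 : 0 ≤ j) (h2 : j ≤ (a f : ℤ)) :
    0 ≤ 2 * (sin (z f)).arg - 2 * (G (z f) (m f) j).arg ∧
    2 * (sin (z f)).arg - 2 * (G (z f) (m f) j).arg < 2 * Real.pi ∧ G (z f) (m f) j ≠ 0 := by
  have hpi := Real.pi_gt_three
  have hb : (1000:ℤ) ≤ (a f : ℤ) := by exact_mod_cast h.big f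
  have ht := h.tp hf
  rcases lt_or_ge j 1 with c1 | c1
  · obtain ⟨-, ⟨s0, s2⟩, -⟩ := h.start hf
    have s2 := abs_le.mp s2
    have c : j = 0 := by omega
    subst c
    exact ⟨by linarith, by linarith, s0⟩
  · rcases le_or_gt j (a f - 1) with c2 | c2
    · have i1 := h.inner hf c1 c2
      exact ⟨by linarith, by linarith, i1.2.2.1⟩
    · obtain ⟨-, ⟨s0, s2⟩, -⟩ := h.stop hf
      have s2 := abs_le.mp s2
      have c : j = a f := by omega
      subst c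
      exact ⟨by linarith, by linarith, s0⟩

theorem hq0 {f : ℕ} (hs : s f = false) :
    sin (q f) = I * tan (z f) * (starRingEnd ℂ) (cos (z (f + 1))) := by
  have := h.hq f
  rw [hs] at this
  exact this

theorem hm0 {f : ℕ} (hs : s f = false) :
    sin (m (f + 1)) = I * tan (z (f + 1)) * (starRingEnd ℂ) (cos (z f)) := by
  have := h.hm f
  rw [hs] at this
  exact this

theorem hq1 {f : ℕ} (hs : s f = true) :
    sin (q f) = I * tan (z f) * cos (z (f + 1)) := by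
  have := h.hq f
  rw [hs] at this
  exact this

theorem hm1 {f : ℕ} (hs : s f = true) :
    sin (m (f + 1)) = I * tan (z (f + 1)) * cos (z f) := by
  have := h.hm f
  rw [hs] at this
  exact this

theorem G_stop {f : ℕ} (hf : 1 ≤ f) (k : ℤ) : G (z f) (m f) (a f - k) = G (z f) (q f) k := by
  rw [G_symm (h.he' hf)]
  congr 1
  ring

theorem zeta_stop {f : ℕ} (hf : 1 ≤ f) (hs : s f = false) :
    sin (z f) ^ 2 / G (z f) (m f) (a f) ^ 2
    = -(cos (z f) ^ 2 / (starRingEnd ℂ) (cos (z (f + 1))) ^ 2) := by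
  have hs' := (h.tp hf).1
  have hz := h.hz f
  have hz' := h.hz (f + 1)
  have c0 := cos_ne_zero' (w := z f) (by linarith)
  have c0' := cos_ne_zero' (w := z (f + 1)) (by linarith)
  have cc : (starRingEnd ℂ) (cos (z (f + 1))) ≠ 0 := (map_ne_zero _).mpr c0'
  have e := h.G_stop hf 0
  rw [sub_zero] at e
  rw [e, G_zero, neg_sq, h.hq0 hs, tan_eq_sin_div_cos]
  have := I_ne_zero
  field_simp
  rw [I_sq]
  ring

theorem zeta_start {f : ℕ} (hs : s f = false) :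
    sin (z (f + 1)) ^ 2 / G (z (f + 1)) (m (f + 1)) 0 ^ 2
    = -(cos (z (f + 1)) ^ 2 / (starRingEnd ℂ) (cos (z f)) ^ 2) := by
  have hs' := (h.tp (show 1 ≤ f + 1 by omega)).1
  have hz := h.hz f
  have hz' := h.hz (f + 1)
  have c0 := cos_ne_zero' (w := z f) (by linarith)
  have c0' := cos_ne_zero' (w := z (f + 1)) (by linarith)
  have cc : (starRingEnd ℂ) (cos (z f)) ≠ 0 := (map_ne_zero _).mpr c0
  rw [G_zero, neg_sq, h.hm0 hs, tan_eq_sin_div_cos]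
  have := I_ne_zero
  field_simp
  rw [I_sq]
  ring

/-- all shapes have positive imaginary part -/
theorem im_pos {f : ℕ} (hf : 2 ≤ f) {j : ℤ}
    (h1 : (if s (f - 1) then 1 else 0) ≤ j)
    (h2 : j ≤ if s f then (a f : ℤ) - 1 else a f) :
    0 < (sin (z f) ^ 2 / G (z f) (m f) j ^ 2).im := by
  have hb : (1000:ℤ) ≤ (a f : ℤ) := by exact_mod_cast h.big f
  rcases lt_or_ge j 1 with c1 | c1
  · have hs : s (f - 1) = false := by
      by_contra h3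
      rw [if_pos (by simpa using h3)] at h1
      omega
    rw [if_neg (by simp [hs])] at h1
    have c : j = 0 := by omega
    subst c
    obtain ⟨g, rfl⟩ : ∃ g, f = g + 1 := ⟨f - 1, by omega⟩
    rw [Nat.add_sub_cancel] at hs
    rw [h.zeta_start hs]
    obtain ⟨p1, p2, p3, p4⟩ := h.sector (show 1 ≤ g + 1 by omega)
    obtain ⟨q1, q2, q3, q4⟩ := h.sector (show 1 ≤ g by omega)
    exact hinge_im p1 p2 p3 p4 q1 q2 q3 q4
  · by_cases c2 : j = a f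
    · have hs : s f = false := by
        by_contra h4
        rw [if_pos (by simpa using h4)] at h2
        omega
      subst c2
      rw [h.zeta_stop (by omega) hs]
      obtain ⟨p1, p2, p3, p4⟩ := h.sector (show 1 ≤ f by omega)
      obtain ⟨q1, q2, q3, q4⟩ := h.sector (show 1 ≤ f + 1 by omega)
      exact hinge_im p1 p2 p3 p4 q1 q2 q3 q4
    · refine (h.inner (by omega) c1 ?_).2.2.2
      split_ifs at h2 <;> omega

/-- the angles of all layers -/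
theorem lay {f : ℕ} (hf : 2 ≤ f) {j : ℤ}
    (h1 : (if s (f - 1) then 1 else 0) ≤ j)
    (h2 : j ≤ if s f then (a f : ℤ) - 1 else a f) :
    2 * (sin (z f)).arg - 2 * (G (z f) (m f) j).arg
      = (sin (z f) ^ 2 / G (z f) (m f) j ^ 2).arg ∧
    2 * (G (z f) (m f) j).arg - (G (z f) (m f) (j - 1)).arg - (G (z f) (m f) (j + 1)).arg
      = -(1 - sin (z f) ^ 2 / G (z f) (m f) j ^ 2).arg := by
  have hpi := Real.pi_gt_three
  have hb : (1000:ℤ) ≤ (a f : ℤ) := by exact_mod_cast h.big f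
  have hf1 : 1 ≤ f := by omega
  have x := h.xrange hf1 (j := j) (by split_ifs at h1 <;> omega) (by split_ifs at h2 <;> omega)
  have c1 := abs_lt.mp (h.consec hf1 (j := j - 1) (by split_ifs at h1 <;> omega)
    (by split_ifs at h2 <;> omega))
  have c2 := abs_lt.mp (h.consec hf1 (j := j) (by split_ifs at h1 <;> omega)
    (by split_ifs at h2 <;> omega))
  rw [sub_add_cancel] at c1
  have := layer x.2.2 (G_mul (z f) (m f) j) (h.im_pos hf h1 h2) (by linarith [x.1]) x.2.1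
    (by linarith [c1.2, c2.1]) (by linarith [c1.1, c2.2])
  exact ⟨this.1, this.2.1⟩

/-- positivity -/
theorem pos {f : ℕ} (hf : 2 ≤ f) {j : ℤ}
    (h1 : (if s (f - 1) then 1 else 0) ≤ j)
    (h2 : j ≤ if s f then (a f : ℤ) - 1 else a f) :
    0 < 2 * (sin (z f)).arg - 2 * (G (z f) (m f) j).arg ∧
    0 < 2 * (G (z f) (m f) j).arg - (G (z f) (m f) (j - 1)).arg - (G (z f) (m f) (j + 1)).arg ∧
    0 < Real.pi - (2 * (sin (z f)).arg - 2 * (G (z f) (m f) j).arg)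
      - (2 * (G (z f) (m f) j).arg - (G (z f) (m f) (j - 1)).arg
        - (G (z f) (m f) (j + 1)).arg) := by
  obtain ⟨l1, l2⟩ := h.lay hf h1 h2
  obtain ⟨t1, t2, t3⟩ := tri (h.im_pos hf h1 h2)
  rw [l1, l2]
  exact ⟨t1, t2, by linarith⟩

/-- the angle of a hinge seen from the two fans -/
theorem hinge_ang {f : ℕ} (hf : 2 ≤ f) (hs : s f = false) :
    2 * (sin (z (f + 1))).arg - 2 * (G (z (f + 1)) (m (f + 1)) 0).arg
      = 2 * (sin (z f)).arg - 2 * (G (z f) (m f) (a f)).arg := by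
  have hb : (1000:ℤ) ≤ (a f : ℤ) := by exact_mod_cast h.big f
  have hb' : (1000:ℤ) ≤ (a (f + 1) : ℤ) := by exact_mod_cast h.big (f + 1)
  have i1 := h.im_pos hf (j := a f) (by split_ifs <;> omega) (by rw [if_neg (by simp [hs])])
  obtain ⟨l1, l2⟩ := h.lay hf (j := a f) (by split_ifs <;> omega) (by rw [if_neg (by simp [hs])])
  obtain ⟨k1, k2⟩ := h.lay (f := f + 1) (by omega) (j := 0)
    (by rw [Nat.add_sub_cancel, if_neg (by simp [hs])])
    (by split_ifs <;> omega)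
  obtain ⟨s0, s1, s2⟩ := arg_swap i1
  have e : ((starRingEnd ℂ) (sin (z f) ^ 2 / G (z f) (m f) (a f) ^ 2))⁻¹
      = sin (z (f + 1)) ^ 2 / G (z (f + 1)) (m (f + 1)) 0 ^ 2 := by
    rw [h.zeta_stop (by omega) hs, h.zeta_start hs]
    rw [map_neg, map_div₀, map_pow, map_pow, conj_conj, inv_neg, inv_div]
  rw [e] at s1
  rw [k1, l1]
  exact s1

theorem rel_stop {f : ℕ} (hf : 1 ≤ f) (hs : s f = false) :
    G (z f) (m f) (a f + 1) / G (z f) (m f) (a f)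
      = -I * (starRingEnd ℂ) (G (z (f + 1)) (m (f + 1)) 1 / sin (z (f + 1))) := by
  have e1 := h.G_stop hf (-1)
  have e2 := h.G_stop hf 0
  rw [sub_neg_eq_add] at e1
  rw [sub_zero] at e2
  rw [e1, e2]
  exact hinge_rel (h.hz _) (h.hz f) (h.mn _ (by omega)) (h.qn f) (h.hm0 hs)
    (h.hq0 hs) (h.tp (by omega)).1 (h.tp hf).1

theorem arg_stop {f : ℕ} (hf : 1 ≤ f) (hs : s f = false) :
    (G (z f) (m f) (a f + 1)).arg - (G (z f) (m f) (a f)).arg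
      = -(Real.pi / 2) - ((G (z (f + 1)) (m (f + 1)) 1).arg - (sin (z (f + 1))).arg) := by
  have hpi := Real.pi_gt_three
  obtain ⟨⟨n1, s1⟩, ⟨n2, s2⟩, ⟨n3, s3⟩⟩ := h.start (show 1 ≤ f + 1 by omega)
  obtain ⟨⟨k1, t1⟩, ⟨k2, t2⟩, ⟨k3, t3⟩⟩ := h.stop hf
  obtain ⟨tp0, tp1, tp2⟩ := h.tp (show 1 ≤ f + 1 by omega)
  have a1 := (Ar.of_arg k3).div (Ar.of_arg k2)
  rw [h.rel_stop hf hs] at a1
  have a2 := Ar_neg_I.mul ((Ar.of_arg n1).div (Ar.of_arg tp0)).conj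
  have s1 := abs_le.mp s1
  have t2 := abs_le.mp t2
  have t3 := abs_le.mp t3
  have := a1.unique a2 (by rw [abs_lt]; constructor <;> linarith)
  linarith

/-- the relations at a hinge which is not alternating -/
theorem rel_s {f : ℕ} (hf : 1 ≤ f) (hs : s f = true) :
    G (z (f + 1)) (m (f + 1)) 1 / sin (z (f + 1))
      = -I * (G (z f) (m f) (a f - 1) / G (z f) (m f) (a f)) ∧
    G (z f) (m f) (a f - 1) / sin (z f)
      = -I * (G (z (f + 1)) (m (f + 1)) 1 / G (z (f + 1)) (m (f + 1)) 0) := by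
  have e1 := h.G_stop hf 1
  have e2 := h.G_stop hf 0
  rw [sub_zero] at e2
  rw [e1, e2]
  have hf' : 1 ≤ f + 1 := by omega
  exact ⟨hinge_rel_s (h.hz f) (h.hz _) (h.qn f) (h.mn _ hf') (h.hq1 hs)
    (h.hm1 hs) (h.tp hf).1 (h.tp hf').1,
    hinge_rel_s (h.hz _) (h.hz f) (h.mn _ hf') (h.qn f) (h.hm1 hs)
    (h.hq1 hs) (h.tp hf').1 (h.tp hf).1⟩

theorem arg_s {f : ℕ} (hf : 1 ≤ f) (hs : s f = true) :
    (G (z (f + 1)) (m (f + 1)) 1).arg - (sin (z (f + 1))).arg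
      = (G (z f) (m f) (a f - 1)).arg - (G (z f) (m f) (a f)).arg - Real.pi / 2 ∧
    (G (z f) (m f) (a f - 1)).arg - (sin (z f)).arg
      = (G (z (f + 1)) (m (f + 1)) 1).arg - (G (z (f + 1)) (m (f + 1)) 0).arg
        - Real.pi / 2 := by
  have hpi := Real.pi_gt_three
  obtain ⟨⟨n1, s1⟩, ⟨n2, s2⟩, ⟨n3, s3⟩⟩ := h.start (show 1 ≤ f + 1 by omega)
  obtain ⟨⟨k1, t1⟩, ⟨k2, t2⟩, ⟨k3, t3⟩⟩ := h.stop hf
  obtain ⟨tp0, tp1, tp2⟩ := h.tp (show 1 ≤ f + 1 by omega)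
  obtain ⟨tq0, tq1, tq2⟩ := h.tp hf
  obtain ⟨r1, r2⟩ := h.rel_s hf hs
  have s1 := abs_le.mp s1
  have s2 := abs_le.mp s2
  have t1 := abs_le.mp t1
  have t2 := abs_le.mp t2
  have a1 := (Ar.of_arg n1).div (Ar.of_arg tp0)
  rw [r1] at a1
  have a2 := Ar_neg_I.mul ((Ar.of_arg k1).div (Ar.of_arg k2))
  have e1 := a1.unique a2 (by rw [abs_lt]; constructor <;> linarith)
  have b1 := (Ar.of_arg k1).div (Ar.of_arg tq0)
  rw [r2] at b1
  have b2 := Ar_neg_I.mul ((Ar.of_arg n1).div (Ar.of_arg n2))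
  have e2 := b1.unique b2 (by rw [abs_lt]; constructor <;> linarith)
  constructor <;> linarith

/-- lengths at the hinges -/
theorem len {f : ℕ} (hf : 1 ≤ f) :
    ‖G (z (f + 1)) (m (f + 1)) 0‖ * ‖tan (z f)‖ = ‖sin (z f)‖ * ‖tan (z (f + 1))‖ ∧
    ‖sin (z (f + 1))‖ * ‖tan (z f)‖ = ‖G (z f) (m f) (a f)‖ * ‖tan (z (f + 1))‖ := by
  have c0 := cos_ne_zero' (w := z f) (by linarith [h.hz f])
  have c0' := cos_ne_zero' (w := z (f + 1)) (by linarith [h.hz (f + 1)])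
  have tn : tan (z f) = sin (z f) / cos (z f) := tan_eq_sin_div_cos _
  have tn' : tan (z (f + 1)) = sin (z (f + 1)) / cos (z (f + 1)) := tan_eq_sin_div_cos _
  have e0 : ‖G (z (f + 1)) (m (f + 1)) 0‖ = ‖tan (z (f + 1))‖ * ‖cos (z f)‖ := by
    rw [G_zero, norm_neg, h.hm f, norm_mul, norm_mul, norm_I, one_mul, norm_cj]
  have e1 : ‖G (z f) (m f) (a f)‖ = ‖tan (z f)‖ * ‖cos (z (f + 1))‖ := by
    have := h.G_stop hf 0
    rw [sub_zero] at this
    rw [this, G_zero, norm_neg, h.hq f, norm_mul, norm_mul, norm_I, one_mul, norm_cj]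
  have cn : ‖cos (z f)‖ ≠ 0 := norm_ne_zero_iff.mpr c0
  have cn' : ‖cos (z (f + 1))‖ ≠ 0 := norm_ne_zero_iff.mpr c0'
  constructor
  · rw [e0, tn, norm_div]
    field_simp
  · rw [e1, tn', norm_div]
    field_simp

theorem len0 {f : ℕ} (hf : 1 ≤ f) (hs : s f = false) :
    ‖G (z (f + 1)) (m (f + 1)) 1‖ * ‖tan (z f)‖
      = ‖G (z f) (m f) (a f + 1)‖ * ‖tan (z (f + 1))‖ := by
  have hf' : 1 ≤ f + 1 := by omega
  obtain ⟨⟨n1, -⟩, ⟨n2, -⟩, ⟨n3, -⟩⟩ := h.start hf'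
  obtain ⟨⟨k1, -⟩, ⟨k2, -⟩, ⟨k3, -⟩⟩ := h.stop hf
  have r2 := congrArg norm (h.rel_stop hf hs)
  rw [norm_div, norm_mul, norm_neg, norm_I, one_mul, norm_conj, norm_div] at r2
  have sn' : ‖sin (z (f + 1))‖ ≠ 0 := norm_ne_zero_iff.mpr (h.tp hf').1
  have g1 : ‖G (z f) (m f) (a f)‖ ≠ 0 := norm_ne_zero_iff.mpr k2
  have q2 := (h.len hf).2
  rw [div_eq_div_iff g1 sn'] at r2
  have : (‖G (z (f + 1)) (m (f + 1)) 1‖ * ‖tan (z f)‖) * ‖G (z f) (m f) (a f)‖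
      = (‖G (z f) (m f) (a f + 1)‖ * ‖tan (z (f + 1))‖) * ‖G (z f) (m f) (a f)‖ := by
    linear_combination (-‖tan (z f)‖) * r2 + ‖G (z f) (m f) (a f + 1)‖ * q2
  exact mul_right_cancel₀ g1 this

theorem len1 {f : ℕ} (hf : 1 ≤ f) (hs : s f = true) :
    ‖G (z (f + 1)) (m (f + 1)) 1‖ * ‖tan (z f)‖
      = ‖G (z f) (m f) (a f - 1)‖ * ‖tan (z (f + 1))‖ := by
  have hf' : 1 ≤ f + 1 := by omega
  obtain ⟨⟨n1, -⟩, ⟨n2, -⟩, ⟨n3, -⟩⟩ := h.start hf'
  obtain ⟨⟨k1, -⟩, ⟨k2, -⟩, ⟨k3, -⟩⟩ := h.stop hf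
  have r1 := congrArg norm (h.rel_s hf hs).1
  rw [norm_div, norm_mul, norm_neg, norm_I, one_mul, norm_div] at r1
  have sn' : ‖sin (z (f + 1))‖ ≠ 0 := norm_ne_zero_iff.mpr (h.tp hf').1
  have g1 : ‖G (z f) (m f) (a f)‖ ≠ 0 := norm_ne_zero_iff.mpr k2
  have q2 := (h.len hf).2
  rw [div_eq_div_iff sn' g1] at r1
  have : (‖G (z (f + 1)) (m (f + 1)) 1‖ * ‖tan (z f)‖) * ‖G (z f) (m f) (a f)‖
      = (‖G (z f) (m f) (a f - 1)‖ * ‖tan (z (f + 1))‖) * ‖G (z f) (m f) (a f)‖ := by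
    linear_combination ‖tan (z f)‖ * r1 + ‖G (z f) (m f) (a f - 1)‖ * q2
  exact mul_right_cancel₀ g1 this

/-- no zeros -/
theorem ne {f : ℕ} (hf : 1 ≤ f) {j : ℤ} (h1 : 0 ≤ j) (h2 : j ≤ (a f : ℤ) + 1) :
    G (z f) (m f) j ≠ 0 := by
  have hb : (1000:ℤ) ≤ (a f : ℤ) := by exact_mod_cast h.big f
  rcases le_or_gt j (a f) with c | c
  · exact (h.xrange hf h1 c).2.2
  · rw [show j = (a f : ℤ) + 1 by omega]
    exact (h.stop hf).2.2.1

end SC

end Pool.Agent.Helper67.CYC
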