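import Pool.Agent.Helper52.OC.Octa

/-! # Hyperbolic structures on the layered triangulations of punctured torus bundles

Arguments and moduli of the lambda-lengths of the four kinds of edges which occur at a layer: the
flipped edge (`o`), the edge created in the preceding layer (`y`), the third one (`p`) and the new
one (`n`). -/

namespace Pool.Agent.Helper67.CYC
open Finset Pool.Agent.Helper5.TV Pool.Agent.Helper5.Cov Pool.Agent.Helper52.OC

/-- data which give a hyperbolic structure -/
structure CShape {N : ℕ} (p : Fin N → Bool) where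
  θo : Fin N → ℝ
  θy : Fin N → ℝ
  θn : Fin N → ℝ
  θp : Fin N → ℝ
  le : Fin N → ℝ
  lp : Fin N → ℝ
  tr_not : ∀ i, p (prv i) = true → θo (finRotate N i) = θy i ∧ θy (finRotate N i) = θn i ∧
    θp (finRotate N i) = θp i
  tr_st : ∀ i, p (prv i) = false → θo (finRotate N i) - θp (finRotate N i) = θy i - θp i ∧
    θy (finRotate N i) - θp (finRotate N i) = θy i - θn i - Real.pi/2
  lp_tr : ∀ i, lp (finRotate N i) = if p (prv i) then lp i else le (prv i)
  le_pos : ∀ i, 0 < le i
  posX : ∀ i, 0 < 2 * θp i - 2 * θy i
  posW : ∀ i, 0 < 2 * θy i - θo i - θn i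
  posY : ∀ i, 0 < Real.pi - 2 * θp i + θo i + θn i
  sine : ∀ i, ∃ κ : ℝ, 0 < κ ∧ Real.sin (2 * θp i - 2 * θy i)
      = κ * (le i * (if p (prv (prv i)) then le (prv (prv i)) else lp (prv i))) ∧
    Real.sin (2 * θy i - θo i - θn i) = κ * (lp i)^2 ∧
    Real.sin (Real.pi - 2 * θp i + θo i + θn i) = κ * (le (prv i))^2

variable {N : ℕ} (p s : Fin N → Bool) (hp : ∃ i, p i = false)

theorem wY_surj : Function.Surjective (wY p hp) := by
  intro j
  cases hj : p j
  · -- the next `false`
    by_contra hcon
    push Not at hcon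
    have key : ∀ i, wX p hp i = j := by
      apply cyc_ind (P := fun i => wX p hp i = j) (finRotate N j)
      · rw [wX_eq, prv_nxt, hj]
        rfl
      · intro i hi
        have h1 : p (prv i) = true := by
          by_contra h2
          have h3 : p (prv i) = false := by simpa using h2
          apply hcon i
          unfold wY
          rw [h3]
          exact hi
        rw [wX_eq, h1]
        exact hi
    apply hcon (finRotate N j)
    unfold wY
    rw [prv_nxt, hj]
    exact key j
  · refine ⟨finRotate N j, ?_⟩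
    unfold wY
    rw [prv_nxt, hj]
    rfl

theorem prv_bij : Function.Bijective (prv : Fin N → Fin N) := (finRotate N).symm.bijective

theorem wZ_bij : Function.Bijective (wZ p hp) :=
  (Finite.injective_iff_bijective.mp ((Finite.injective_iff_surjective.mpr (wY_surj p hp)))).comp
    prv_bij

theorem wZ_sum (j : Fin N) (c : ℝ) : ∑ i, (if wZ p hp i = j then c else 0) = c := by
  obtain ⟨i0, hi0⟩ := (wZ_bij p hp).2 j
  rw [sum_eq_single i0]
  · rw [if_pos hi0]
  · intro i _ hne
    rw [if_neg]
    intro h
    exact hne ((wZ_bij p hp).1 (h.trans hi0.symm))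
  · intro h
    exact absurd (mem_univ _) h

theorem sum_nxt (f : Fin N → ℝ) : ∑ i, f (finRotate N i) = ∑ i, f i :=
  Equiv.sum_comp (finRotate N) f

namespace CShape
variable {p} (S : CShape p)

/-- dihedral angle at the flipped edge and at the new one -/
def X (i : Fin N) : ℝ := 2 * S.θp i - 2 * S.θy i
/-- dihedral angle at the edges `p` -/
def W (i : Fin N) : ℝ := 2 * S.θy i - S.θo i - S.θn i
/-- dihedral angle at the edges `y` -/
noncomputable def Y (i : Fin N) : ℝ := Real.pi - 2 * S.θp i + S.θo i + S.θn i

theorem XWY (i : Fin N) : S.X i + S.W i + S.Y i = Real.pi := by unfold X W Y; ring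

/-- dihedral angles by kind -/
noncomputable def ca (i : Fin N) (k : ℕ) : ℝ :=
  if k = 1 then (if p (prv i) then S.W i else S.Y i)
  else if k = 2 then (if p (prv i) then S.Y i else S.W i) else S.X i

theorem ca0 (i : Fin N) : S.ca i 0 = S.X i := rfl

theorem ca1 (i : Fin N) : S.ca i 1 = if p (prv i) then S.W i else S.Y i := rfl

theorem ca2 (i : Fin N) : S.ca i 2 = if p (prv i) then S.Y i else S.W i := rfl

theorem ca3 (i : Fin N) : S.ca i 3 = S.X i := rfl

def Ay (i : Fin N) : ℝ := 2 * S.θp i - 2 * S.θo i
noncomputable def Ao (i : Fin N) : ℝ := 2 * Real.pi - 2 * S.θp i + 2 * S.θy i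
noncomputable def Ap (i : Fin N) : ℝ := Real.pi + 2 * S.θo i - 2 * S.θy i

theorem step_new (i : Fin N) : S.X i = S.Ay (finRotate N i) := by
  unfold X Ay
  cases h : p (prv i)
  · linarith [(S.tr_st i h).1]
  · linarith [(S.tr_not i h).1, (S.tr_not i h).2.2]

theorem step_old (i : Fin N) : S.Ao i + S.X i = 2 * Real.pi := by
  unfold X Ao; ring

/-- accumulated angle of the edge `wX` -/
noncomputable def AX (i : Fin N) : ℝ := if p (prv i) then S.Ap i else S.Ay i
/-- accumulated angle of the edge `wY` -/
noncomputable def AY (i : Fin N) : ℝ := if p (prv i) then S.Ay i else S.Ap i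

theorem step_Y (i : Fin N) : S.AY i + 2 * S.ca i 2 = S.Ao (finRotate N i) := by
  rw [ca2]
  unfold AY Ay Ao Ap
  cases h : p (prv i)
  · simp only [Bool.false_eq_true, if_false]
    unfold W
    linarith [(S.tr_st i h).1, (S.tr_st i h).2]
  · simp only [if_true]
    unfold Y
    linarith [(S.tr_not i h).1, (S.tr_not i h).2.1, (S.tr_not i h).2.2]

theorem step_X (i : Fin N) : S.AX i + 2 * S.ca i 1 = S.Ap (finRotate N i) := by
  rw [ca1]
  unfold AX Ay Ap
  cases h : p (prv i)
  · simp only [Bool.false_eq_true, if_false]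
    unfold Y
    linarith [(S.tr_st i h).1, (S.tr_st i h).2]
  · simp only [if_true]
    unfold W
    linarith [(S.tr_not i h).1, (S.tr_not i h).2.1, (S.tr_not i h).2.2]

/-- accumulated angle of the edge `j` at the layer `i` -/
noncomputable def acc (i j : Fin N) : ℝ :=
  (if wX p hp i = j then S.AX i else 0) + (if wY p hp i = j then S.AY i else 0)
    + (if wZ p hp i = j then S.Ao i else 0)

theorem acc_step (i j : Fin N) :
    (if i = j then S.X i else 0) + 2 * (if wX p hp i = j then S.ca i 1 else 0)
      + 2 * (if wY p hp i = j then S.ca i 2 else 0) + (if wZ p hp i = j then S.X i else 0)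
    = S.acc hp (finRotate N i) j - S.acc hp i j + (if wZ p hp i = j then 2 * Real.pi else 0) := by
  have h1 := S.step_new i
  have h2 := S.step_old i
  have h3 := S.step_Y i
  have h4 := S.step_X i
  have hZ : wZ p hp (finRotate N i) = wY p hp i := by
    unfold wZ
    rw [prv_nxt]
  have hX := wX_eq p hp (finRotate N i)
  have hY : wY p hp (finRotate N i) = if p i then i else wX p hp i := by
    unfold wY
    rw [prv_nxt]
  rw [prv_nxt] at hX
  have hAX : S.AX (finRotate N i) = if p i then S.Ap (finRotate N i) else S.Ay (finRotate N i) := by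
    unfold AX
    rw [prv_nxt]
  have hAY : S.AY (finRotate N i) = if p i then S.Ay (finRotate N i) else S.Ap (finRotate N i) := by
    unfold AY
    rw [prv_nxt]
  unfold acc
  rw [hZ, hX, hY, hAX, hAY]
  cases p i
  · simp only [Bool.false_eq_true, if_false]
    split_ifs <;> linarith
  · simp only [if_true]
    split_ifs <;> linarith

theorem edge_total (j : Fin N) :
    ∑ i, ((if i = j then S.X i else 0) + 2 * (if wX p hp i = j then S.ca i 1 else 0)
      + 2 * (if wY p hp i = j then S.ca i 2 else 0) + (if wZ p hp i = j then S.X i else 0))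
    = 2 * Real.pi := by
  rw [sum_congr rfl (fun i _ => S.acc_step hp i j), sum_add_distrib, sum_sub_distrib, wZ_sum,
    sum_nxt (fun i => S.acc hp i j), sub_self, zero_add]

theorem le_wX (i : Fin N) : S.le (wX p hp i) = S.lp (finRotate N i) := by
  refine unique_rec p hp (fun _ v => v) (fun i => S.le (prv i))
    (F := fun i => S.le (wX p hp i)) (G := fun i => S.lp (finRotate N i)) ?_ ?_ i
  · intro i
    rw [wX_eq]
    split_ifs <;> rfl
  · intro i
    rw [S.lp_tr, nxt_prv]

theorem le_wY (i : Fin N) : S.le (wY p hp i) = if p (prv i) then S.le (prv i) else S.lp i := by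
  unfold wY
  split_ifs
  · rfl
  · rw [le_wX, nxt_prv]

theorem le_wZ (i : Fin N) : S.le (wZ p hp i)
    = if p (prv (prv i)) then S.le (prv (prv i)) else S.lp (prv i) := by
  unfold wZ
  exact S.le_wY hp (prv i)

/-- **the hyperbolic structure** -/
noncomputable def str : IdealStructure (word N p s hp) where
  ang := fun i a b => S.ca i (shN a b)
  len := fun e => S.le (wedgeCls p s hp e)
  ang_symm := fun i a b => by rw [shN_symm]
  ang_opp := fun i => ⟨rfl, rfl, rfl⟩
  ang_pos := fun i a b _ => by
    have h1 := S.posX i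
    have h2 := S.posW i
    have h3 := S.posY i
    unfold ca
    split_ifs
    · exact h2
    · exact h3
    · exact h3
    · exact h2
    · exact h1
  ang_sum := fun i => by
    change S.ca i 1 + S.ca i 2 + S.ca i 3 = Real.pi
    have h := S.XWY i
    rw [ca1, ca2, ca3]
    split_ifs <;> linarith
  edge := fun e => by
    refine (edge_sum p s hp (fun i k => S.ca i k) e).trans ?_
    have h := S.edge_total hp (wedgeCls p s hp e)
    rw [← h, mul_sum]
    apply sum_congr rfl
    intro i _
    rw [ca0, ca3]
    split_ifs <;> ring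
  len_pos := fun e => S.le_pos _
  tet := fun i => by
    obtain ⟨κ, k0, k1, k2, k3⟩ := S.sine i
    refine ⟨κ⁻¹, inv_pos.mpr k0, ?_, ?_, ?_⟩
    · change S.le (wX p hp i) * S.le (wX p hp i) = κ⁻¹ * Real.sin (S.ca i 1)
      have e : S.le (wX p hp i) = if p (prv i) then S.lp i else S.le (prv i) := by
        rw [le_wX, S.lp_tr]
      rw [e, ca1]
      split_ifs
      · change _ = κ⁻¹ * Real.sin (2 * S.θy i - S.θo i - S.θn i)
        rw [k2]
        field_simp
      · change _ = κ⁻¹ * Real.sin (Real.pi - 2 * S.θp i + S.θo i + S.θn i)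
        rw [k3]
        field_simp
    · change S.le (wY p hp i) * S.le (wY p hp i) = κ⁻¹ * Real.sin (S.ca i 2)
      rw [ca2, le_wY]
      split_ifs
      · change _ = κ⁻¹ * Real.sin (Real.pi - 2 * S.θp i + S.θo i + S.θn i)
        rw [k3]
        field_simp
      · change _ = κ⁻¹ * Real.sin (2 * S.θy i - S.θo i - S.θn i)
        rw [k2]
        field_simp
    · change S.le (wZ p hp i) * S.le i = κ⁻¹ * Real.sin (S.ca i 3)
      rw [ca3, le_wZ]
      change _ = κ⁻¹ * Real.sin (2 * S.θp i - 2 * S.θy i)
      rw [k1]
      field_simp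

theorem str_volume : (S.str s hp).volume
    = ∑ i, (lobachevsky (S.X i) + lobachevsky (S.W i) + lobachevsky (S.Y i)) := by
  apply sum_congr rfl
  intro i _
  change lobachevsky (S.ca i 1) + lobachevsky (S.ca i 2) + lobachevsky (S.ca i 3) = _
  rw [ca1, ca2, ca3]
  split_ifs <;> ring

end CShape

end Pool.Agent.Helper67.CYC
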