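import Pool.Agent.Helper67.CYC.Crit
import Pool.Agent.Helper67.TBM.Vol

/-! # Cyclic words: the volume is `2π` times the critical value -/

namespace Pool.Agent.Helper67.CYC
open Complex Finset
open Pool.Agent.Helper5.TB (V Vx Vy)
open Pool.Agent.Helper15.TB (BW GG Sm sin_ne_of_small Near ph V_re2 Vx_approx BW_kap)
open Pool.Agent.Helper67.TBM (zf phf phm php sf thf XA WA YA volA sm sgA sg sg_le zz zf_eq norm_zf
  phf_eq hinge_sum)

theorem sum_shift {M : Type*} [AddCommGroup M] {r : ℕ} {g : ℕ → M} (hg : ∀ f, g (f + r) = g f) :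
    ∑ f ∈ range r, g (f + 1) = ∑ f ∈ range r, g f := by
  have h1 := sum_range_succ' g r
  have h2 := sum_range_succ g r
  have h3 := hg 0
  rw [zero_add] at h3
  rw [h1, h3] at h2
  exact add_right_cancel h2

/-- the volume of a fan -/
theorem Fan.vol {p : ℕ → Bool} {a : ℕ → ℕ} {x y : ℕ → ℂ} {f : ℕ} (h : Fan p a x y f)
    (hf : 1 ≤ f) :
    ∑ j ∈ Finset.Icc 1 (a f - sg (sm p) f), volA p x y f j
      = GG (zf p x f) (zf p x f - phm p x y f)
        + (GG (zf p x f) (zf p x f - phq p x y f)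
          + (if sm p f then 0 else BW (sin (zf p x f) ^ 2 / sin (phq p x y f) ^ 2))) := by
  have hq : php p (f + 2) x y f = phq p x y f := if_pos (by omega)
  have F : TBM.Fan p (f + 2) a x y f :=
    ⟨h.s0, Or.inr ⟨by omega, h.ml⟩, Or.inr ⟨by omega, by rw [hq]; exact h.pl⟩,
      by rw [hq]; exact h.eq⟩
  have h1 := F.vol (by omega) (by omega)
  rw [if_pos (by omega), if_pos (by omega), hq] at h1
  rw [← h1]
  have e1 : TBM.jlo f = 1 := by
    unfold TBM.jlo
    rw [if_neg (by omega)]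
  have e2 : TBM.jhi p (f + 2) a f = a f - sg (sm p) f := by
    unfold TBM.jhi sg
    rw [if_pos (by omega)]
    split_ifs
    · rfl
    · omega
  rw [e1, e2]

/-- **The volume is `2π` times the growth rate.** -/
theorem volume_eq (C : ℝ) : ∃ T : ℕ, ∃ δ > 0, ∀ (r : ℕ) (p : ℕ → Bool) (a : ℕ → ℕ) (x y : ℕ → ℂ),
    1 ≤ r → (∀ f, T ≤ a f) → (∀ f, p (f + r) = p f) → (∀ f, a (f + r) = a f) →
    CritC C δ r (sgA p a) x y →
    2 * Real.pi * (cvalC r (sgA p a) x y).re
      = 2 * ∑ f ∈ range r, ∑ j ∈ Icc 1 (a (f+1) - sg (sm p) (f+1)), volA p x y (f+1) j := by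
  refine ⟨max 400 ⌈4 * C⌉₊, 1 / 100, by norm_num, fun r p a x y hr hT hpp hpa h => ?_⟩
  have hp := Real.pi_pos
  have P : Per r p a x y := ⟨hpp, hpa, h.perx, h.pery⟩
  have ha : ∀ f, 400 ≤ a f := fun f => (le_max_left _ _).trans (hT f)
  have haC : ∀ f, 4 * C ≤ a f := by
    intro f
    have h1 : ⌈4 * C⌉₊ ≤ a f := (le_max_right _ _).trans (hT f)
    exact (Nat.le_ceil _).trans (by exact_mod_cast h1)
  have hfan : ∀ f, 1 ≤ f → Fan p a x y f := fun f hf => fan_of_crit le_rfl ha haC h hf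
  have hsm : ∀ f, Sm (a f) (zf p x f) := fun f => sm_of_crit ha haC h f
  have hxs : ∀ f, ‖x f‖ ≤ 1 / 100 := by
    intro f
    rw [← norm_zf p]
    exact (hsm f).norm
  have hx0 : ∀ f, x f ≠ 0 := by
    intro f h0
    have := (hsm f).ne
    rw [← norm_ne_zero_iff, norm_zf, h0, norm_zero] at this
    exact this rfl
  -- paths
  have hpath : ∀ f, ∀ t ∈ Set.Ioc (0:ℝ) 1, sin (t * x f) ≠ 0 := by
    intro f t ht
    apply sin_ne_of_small (mul_ne_zero (ofReal_ne_zero.mpr ht.1.ne') (hx0 f))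
    rw [norm_mul, norm_real, Real.norm_eq_abs, abs_of_pos ht.1]
    have := hxs f
    nlinarith [ht.1, ht.2, norm_nonneg (x f)]
  have hph : ∀ f, ∀ u : ℂ, ‖u‖ ≤ 1 / 100 → ∀ t ∈ Set.Icc (-1:ℝ) 1,
      sin (ph (x f) u + t * x f) ≠ 0 := by
    intro f u hu t ht
    have hn : Near (-(x f)) (ph (x f) u) := by
      unfold Near
      rw [norm_neg, mul_neg, sub_neg_eq_add]
      exact Vx_approx (hxs f) hu
    apply sin_ne_of_small
    · have h1 := hn.ne (neg_ne_zero.mpr (hx0 f)) t
      intro h2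
      apply h1
      linear_combination -h2
    · have h1 := hn.norm (by rw [norm_neg]; exact hxs f)
      have h2 : ‖(t : ℂ) * x f‖ ≤ 1 := by
        rw [norm_mul, norm_real, Real.norm_eq_abs]
        have : |t| ≤ 1 := abs_le.mpr ht
        have := hxs f
        have := norm_nonneg (x f)
        have := abs_nonneg t
        nlinarith
      have := norm_add_le (ph (x f) u) (t * x f)
      linarith
  have hph1 : ∀ f, ∀ u : ℂ, ‖u‖ ≤ 1 / 100 → sin (x f - ph (x f) u) ≠ 0 := by
    intro f u hu h3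
    apply hph f u hu (-1) ⟨le_rfl, by norm_num⟩
    have : ph (x f) u + ((-1 : ℝ) : ℂ) * x f = -(x f - ph (x f) u) := by
      push_cast
      ring
    rw [this, sin_neg, h3, neg_zero]
  -- the volume
  have hvol : ∑ f ∈ range r, ∑ j ∈ Icc 1 (a (f+1) - sg (sm p) (f+1)), volA p x y (f+1) j
      = ∑ f ∈ range r, (- GG (x f) (x f - ph (x f) (y f))
        - GG (x (f + 1)) (x (f + 1) - ph (x (f + 1)) (y f))) := by
    rw [sum_congr rfl (fun f _ => (hfan (f + 1) (by omega)).vol (by omega)), sum_add_distrib,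
      sum_shift (g := fun f => GG (zf p x f) (zf p x f - phq p x y f)
        + (if sm p f then 0 else BW (sin (zf p x f) ^ 2 / sin (phq p x y f) ^ 2))) ?_,
      ← sum_add_distrib]
    · apply sum_congr rfl
      intro f _
      have e1 : phm p x y (f + 1) = phf p (f + 1) (Vx (x (f + 1)) (y f)) := if_pos (Nat.succ_pos f)
      have e2 : phq p x y f = phf p f (Vx (x f) (y f)) := rfl
      rw [e1, e2, zf_eq, zf_eq, phf_eq, phf_eq]
      have h1 := hinge_sum (p f) (p (f + 1)) (hxs f) (hxs (f + 1)) (h.hy f) (hpath f)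
        (hpath (f + 1)) (hph f _ (h.hy f)) (hph (f + 1) _ (h.hy f)) (h.ey f)
      rw [← h1]
      unfold sm
      ring
    · intro f
      have e : phq p x y (f + r) = phq p x y f := by
        unfold phq phf
        rw [P.p, P.x, P.y]
      rw [P.zf, P.sm, e]
  -- the potential
  have hV : ∀ f ∈ range r, 2 * Real.pi * (V (x f) (y f) + V (x (f + 1)) (y f)).re
      = 2 * (- GG (x f) (x f - ph (x f) (y f)) - GG (x (f + 1)) (x (f + 1) - ph (x (f + 1)) (y f)))
        - 2 * Real.pi * ((x f).im * (Vx (x f) (y f)).im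
          + (x (f + 1)).im * (Vx (x (f + 1)) (y f)).im) := by
    intro f _
    have v1 := V_re2 (hxs f) (h.hy f) (hph1 f _ (h.hy f))
    have v2 := V_re2 (hxs (f + 1)) (h.hy f) (hph1 (f + 1) _ (h.hy f))
    have h1 := (BW_kap (hxs f) (hxs (f + 1)) (h.hy f) (h.ey f)).2
    have h2 := congrArg Complex.im (h.ey f)
    rw [add_im, zero_im] at h2
    have h3 : (y f).im * ((Vy (x f) (y f)).im + (Vy (x (f + 1)) (y f)).im) = 0 := by
      rw [h2, mul_zero]
    rw [add_re]
    linear_combination v1 + v2 + h1 - 2 * Real.pi * h3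
  -- the quadratic part
  have hQ : ∀ j ∈ range r, 2 * Real.pi * (I * sgA p a (j + 1) / Real.pi * (x (j + 1)) ^ 2
      + 2 * I * x (j + 1)).re = 2 * Real.pi * ((x (j + 1)).im * (Vx (x (j + 1)) (y j)).im
        + (x (j + 1)).im * (Vx (x (j + 1)) (y (j + 1))).im) := by
    intro j _
    have hex := congrArg Complex.im (h.ex j)
    set D1 : ℂ := Vx (x (j + 1)) (y j)
    set D2 : ℂ := Vx (x (j + 1)) (y (j + 1))
    have hA : (sgA p a (j + 1)) ≠ 0 := by
      unfold sgA
      have : 0 < a (j + 1) := by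
        have := ha (j + 1)
        omega
      have : (0:ℝ) < a (j + 1) := by exact_mod_cast this
      split_ifs
      · exact this.ne'
      · exact neg_ne_zero.mpr this.ne'
    have e1 : (2 * I * (sgA p a (j + 1) : ℂ) / Real.pi
        * (x (j + 1) + Real.pi / (sgA p a (j + 1) : ℂ))).im
        = 2 * sgA p a (j + 1) / Real.pi * (x (j + 1)).re + 2 := by
      have : 2 * I * (sgA p a (j + 1) : ℂ) / Real.pi
          * (x (j + 1) + Real.pi / (sgA p a (j + 1) : ℂ))
          = ((2 * sgA p a (j + 1) / Real.pi : ℝ) : ℂ) * (I * x (j + 1)) + ((2 : ℝ) : ℂ) * I := by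
        have h1 : (sgA p a (j + 1) : ℂ) ≠ 0 := ofReal_ne_zero.mpr hA
        have h2 : (Real.pi : ℂ) ≠ 0 := ofReal_ne_zero.mpr hp.ne'
        push_cast
        field_simp
      rw [this, add_im, im_ofReal_mul, I_mul_im, im_ofReal_mul, I_im, mul_one]
    rw [add_im, add_im, e1, zero_im] at hex
    have e2 : (I * sgA p a (j + 1) / Real.pi * (x (j + 1)) ^ 2 + 2 * I * x (j + 1)).re
        = -(sgA p a (j + 1) / Real.pi) * (2 * (x (j + 1)).re * (x (j + 1)).im)
          - 2 * (x (j + 1)).im := by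
      have : I * sgA p a (j + 1) / Real.pi * (x (j + 1)) ^ 2 + 2 * I * x (j + 1)
          = ((sgA p a (j + 1) / Real.pi : ℝ) : ℂ) * (I * (x (j + 1) * x (j + 1)))
            + ((2 : ℝ) : ℂ) * (I * x (j + 1)) := by
        push_cast
        ring
      rw [this, add_re, re_ofReal_mul, re_ofReal_mul, I_mul_re, I_mul_re, mul_im]
      ring
    rw [e2]
    have e3 : D1.im + D2.im = -(2 * sgA p a (j + 1) / Real.pi * (x (j + 1)).re + 2) := by
      linarith
    rw [← mul_add (x (j + 1)).im, e3]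
    ring
  have hA : ∀ f, sgA p a (f + r) = sgA p a f := by
    intro f
    unfold sgA
    rw [P.p, P.a]
  have hQs : ∑ j ∈ range r, (I * sgA p a j / Real.pi * (x j) ^ 2 + 2 * I * x j).re
      = ∑ j ∈ range r, (I * sgA p a (j + 1) / Real.pi * (x (j + 1)) ^ 2 + 2 * I * x (j + 1)).re :=
    (sum_shift (g := fun j => (I * sgA p a j / Real.pi * (x j) ^ 2 + 2 * I * x j).re)
      (fun f => by rw [hA, P.x])).symm
  have hshift : ∑ j ∈ range r, (x (j + 1)).im * (Vx (x (j + 1)) (y (j + 1))).im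
      = ∑ j ∈ range r, (x j).im * (Vx (x j) (y j)).im :=
    sum_shift (g := fun j => (x j).im * (Vx (x j) (y j)).im)
      (fun f => by rw [P.x, P.y])
  rw [hvol]
  unfold cvalC
  rw [add_re, re_sum, re_sum, mul_add, mul_sum, hQs, mul_sum, sum_congr rfl hV,
    sum_congr rfl hQ, ← mul_sum, sum_add_distrib, hshift, sum_sub_distrib, ← mul_sum, ← mul_sum,
    sum_add_distrib]
  ring

end Pool.Agent.Helper67.CYC
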